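import Mathlib
import Pool.Prelude.Def_F_d420a142

/-!
MP_992d6e_an, well-conditioned equilibria: definitions.

THEOREM (new). The number of equilibria of condition number at most `M` of any configuration of
`n` charges is at most `42000000 * n^5 * M^2`.

Condition number at most `M` (`CondLE q a M x`): there are `σ > 0`, `κ ≥ 1`, `0 < ρ < 1` with
`κ ≤ M ρ` such that the Hessian `H_x` of the potential at `x` satisfies `‖H_x v‖ ≥ σ ‖v‖`
and `|H_x(v,w)| ≤ κ σ ‖v‖ ‖w‖`, and at each point `y` at distance at most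
`ρ * (distance of x to the nearest charge)` from `x`, the Hessian differs from `H_x` by at
most `σ/4` in operator norm.

PLAN. `x` an equilibrium of condition number at most `M`, `p` a nearest charge, `d = |x - a_p|`,
`u = x - a_p`.
(1) Sep: another equilibrium `x'` has `|x - x'| > ρ d`.
(2) Grd: `W` is a finite set of at most `6 (2N+1)^2` vectors with norm at most `√3`, such that every
  `u ≠ 0` has `s > 0` and `w ∈ W` with `s ≤ ‖u‖ ≤ √3 s`, `‖s w - u‖ ≤ s / N`.
(3) Zer: for `N ≥ 100 M` there are a coordinate `k`, a direction `w ∈ W` and `t > 0` such that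
  `f(t) = DV(a_p + t w) e_k` vanishes at `t`, `f'(t) ≠ 0`, and `|a_p + t w - x| ≤ 2/5 ρ d`.
(4) By (1) the map `x ↦ (p, k, w, t)` is injective.
(5) ray count: for given `(p, k, w)` there are at most `56 n^4` such `t`: along the line
  `f(t) = ∑_j (α_j + β_j t) P_j(t)^(-3/2)` with quadratic polynomials `P_j`, and the Wronskians of
  the `2n` functions `P_j^(-3/2), t P_j^(-3/2)` are positive functions times polynomials
  of degree at most `8 n^2` (modules Wr, Rol, Ect, Deg, Sel, Cnt).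
-/

namespace PC992WC

open Polynomial N62f3cee0

noncomputable section

/-- Euclidean three-space. -/
abbrev E := EuclideanSpace ℝ (Fin 3)

/-- The Hessian of `V` at `x`. -/
def hess (V : E → ℝ) (x v w : E) : ℝ := iteratedFDeriv ℝ 2 V x ![v, w]

/-- `x` has condition number at most `M`. -/
def CondLE {n : ℕ} (q : Fin n → ℝ) (a : Fin n → E) (M : ℝ) (x : E) : Prop :=
  ∃ σ κ ρ : ℝ, 0 < σ ∧ 1 ≤ κ ∧ 0 < ρ ∧ ρ < 1 ∧ κ ≤ M * ρ ∧
    (∀ v : E, ∃ w : E, ‖w‖ ≤ 1 ∧ σ * ‖v‖ ≤ |hess (potential q a) x v w|) ∧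
    (∀ v w : E, |hess (potential q a) x v w| ≤ κ * σ * ‖v‖ * ‖w‖) ∧
    (∀ y : E, (∀ j, dist y x ≤ ρ * dist x (a j)) → ∀ v w : E,
      |hess (potential q a) y v w - hess (potential q a) x v w| ≤ σ / 4 * ‖v‖ * ‖w‖)

/-- Wronskian of `h 0, ..., h (s-1)` at `t`. -/
def Wr (h : ℕ → ℝ → ℝ) (s : ℕ) (t : ℝ) : ℝ :=
  (Matrix.of (fun i j : Fin s => iteratedDeriv (i : ℕ) (h j) t)).det

/-- `t^k P(t)^(-3/2)`. -/
def pf (k : ℕ) (P : ℝ[X]) (t : ℝ) : ℝ := t ^ k * (P.eval t) ^ (-(3 / 2) : ℝ)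

end

end PC992WC
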