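import Mathlib

/-!
MODULE Rol (S). Rolle for finite sets of zeros (Mathlib only).

Prove by Finset.induction_on_max the stronger statement with the extra conclusion
`∀ x ∈ T, ∃ y ∈ S, x < y`: for `S = insert m S0` with `S0` nonempty apply Rolle between
`max S0` and `m` and insert the point found.
-/

namespace PC992WC

lemma rolle_aux {f f' : ℝ → ℝ} {a b : ℝ} (hf : ∀ x ∈ Set.Icc a b, HasDerivAt f (f' x) x)
    (S : Finset ℝ) : (∀ x ∈ S, x ∈ Set.Icc a b ∧ f x = 0) →
    ∃ T : Finset ℝ, (∀ x ∈ T, x ∈ Set.Icc a b ∧ f' x = 0) ∧ S.card ≤ T.card + 1 ∧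
      ∀ x ∈ T, ∃ y ∈ S, x < y := by
  induction S using Finset.induction_on_max with
  | empty =>
    intro _
    exact ⟨∅, by simp, by simp, by simp⟩
  | insert m S hm ih =>
    intro hS
    obtain ⟨T, hT, hc, hlt⟩ := ih (fun x hx => hS x (Finset.mem_insert_of_mem hx))
    have hmS : m ∉ S := fun h => lt_irrefl _ (hm m h)
    rcases S.eq_empty_or_nonempty with rfl | hne
    · exact ⟨∅, by simp, by simp, by simp⟩
    · set y := S.max' hne with hy
      have hyS : y ∈ S := S.max'_mem hne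
      have hym : y < m := hm y hyS
      obtain ⟨hy1, hy2⟩ := hS y (Finset.mem_insert_of_mem hyS)
      obtain ⟨hm1, hm2⟩ := hS m (Finset.mem_insert_self _ _)
      have hsub : ∀ x ∈ Set.Icc y m, x ∈ Set.Icc a b :=
        fun x hx => ⟨hy1.1.trans hx.1, hx.2.trans hm1.2⟩
      obtain ⟨z, hz, hz0⟩ := exists_hasDerivAt_eq_zero (f := f) (f' := f') hym
        (fun x hx => (hf x (hsub x hx)).continuousAt.continuousWithinAt) (by rw [hy2, hm2])
        (fun x hx => hf x (hsub x (Set.Ioo_subset_Icc_self hx)))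
      have hzT : z ∉ T := by
        intro h
        obtain ⟨w, hw, hzw⟩ := hlt z h
        have := S.le_max' w hw
        rw [← hy] at this
        have := hz.1
        linarith
      refine ⟨insert z T, ?_, ?_, ?_⟩
      · intro x hx
        rcases Finset.mem_insert.mp hx with rfl | hx
        · exact ⟨hsub _ (Set.Ioo_subset_Icc_self hz), hz0⟩
        · exact hT x hx
      · rw [Finset.card_insert_of_notMem hmS, Finset.card_insert_of_notMem hzT]
        omega
      · intro x hx
        rcases Finset.mem_insert.mp hx with rfl | hx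
        · exact ⟨m, Finset.mem_insert_self _ _, hz.2⟩
        · obtain ⟨w, hw, hxw⟩ := hlt x hx
          exact ⟨w, Finset.mem_insert_of_mem hw, hxw⟩

theorem rolle_finset {f f' : ℝ → ℝ} {a b : ℝ} (hf : ∀ x ∈ Set.Icc a b, HasDerivAt f (f' x) x)
    (S : Finset ℝ) (hS : ∀ x ∈ S, x ∈ Set.Icc a b ∧ f x = 0) :
    ∃ T : Finset ℝ, (∀ x ∈ T, x ∈ Set.Icc a b ∧ f' x = 0) ∧ S.card ≤ T.card + 1 := by
  obtain ⟨T, h1, h2, _⟩ := rolle_aux hf S hS
  exact ⟨T, h1, h2⟩

end PC992WC
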