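import Mathlib
import Pool.Agent.Work.MP_992d6e_an.WC.Defs

/-!
MODULE Wr (M). Elementary properties of Wronskians (Mathlib only).

Wr_mul: `iteratedDeriv i (φ * h_j) t = ∑ l ≤ i, C(i,l) φ^(i-l)(t) h_j^(l)(t)` (iteratedDeriv_mul or
  iteratedDeriv_fun_mul), so the matrix is `L * (matrix of h)` with `L i l = C(i,l) φ^(i-l)(t)` for
  `l ≤ i` and `0` otherwise, lower triangular with diagonal `φ t`
  (Matrix.det_of_isLowerTriangular or Matrix.det_of_lowerTriangular).
Wr_one: first column is `(1,0,...,0)` since `h 0` is locally constant; expand along it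
  (Matrix.det_succ_column_zero) and use iteratedDeriv_succ'.
Wr_succ: near `t`, `h j = h 0 * (h j / h 0)`; Wr_mul, then Wr_one with `h 0 / h 0 = 1` near `t`.
Wr_congr: only the germs of `h j`, `j < s`, matter (Filter.EventuallyEq.iteratedDeriv_eq).
-/

namespace PC992WC

open Polynomial Filter Topology
open scoped ContDiff

lemma Wr_congr {h g : ℕ → ℝ → ℝ} {s : ℕ} {t : ℝ} (hg : ∀ j < s, h j =ᶠ[𝓝 t] g j) :
    Wr h s t = Wr g s t := by
  unfold Wr
  congr 1
  ext i j
  simp only [Matrix.of_apply]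
  exact Filter.EventuallyEq.iteratedDeriv_eq _ (hg j j.2)

lemma Wr_mul (φ : ℝ → ℝ) (h : ℕ → ℝ → ℝ) (s : ℕ) (t : ℝ) (hφ : ContDiffAt ℝ ∞ φ t)
    (hh : ∀ j < s, ContDiffAt ℝ ∞ (h j) t) :
    Wr (fun j x => φ x * h j x) s t = φ t ^ s * Wr h s t := by
  unfold Wr
  let L : Matrix (Fin s) (Fin s) ℝ := Matrix.of (fun i l : Fin s =>
    if (l : ℕ) ≤ i then (((i : ℕ).choose l : ℕ) : ℝ) * iteratedDeriv ((i : ℕ) - l) φ t else 0)
  have hL : L.det = φ t ^ s := by
    rw [Matrix.det_of_isLowerTriangular]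
    · simp [L]
    · intro i j hij
      have : (i : ℕ) < j := hij
      simp only [L, Matrix.of_apply]
      rw [if_neg (by omega)]
  have hM : (Matrix.of (fun i j : Fin s => iteratedDeriv (i : ℕ) (fun x => φ x * h j x) t)) =
      L * (Matrix.of (fun i j : Fin s => iteratedDeriv (i : ℕ) (h j) t)) := by
    ext i j
    rw [Matrix.mul_apply]
    simp only [Matrix.of_apply, L]
    have e1 : (fun x => φ x * h j x) = fun x => h j x * φ x := by
      funext x
      ring
    have hle : ((i : ℕ) : ℕ∞ω) ≤ (∞ : ℕ∞ω) := by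
      exact_mod_cast le_top
    rw [e1, iteratedDeriv_fun_mul ((hh j j.2).of_le hle) (hφ.of_le hle)]
    have e2 : ∑ x : Fin s, (if (x : ℕ) ≤ i then (((i : ℕ).choose x : ℕ) : ℝ) *
        iteratedDeriv ((i : ℕ) - x) φ t else 0) * iteratedDeriv (x : ℕ) (h j) t =
        ∑ x ∈ Finset.range s, (if x ≤ (i : ℕ) then (((i : ℕ).choose x : ℕ) : ℝ) *
        iteratedDeriv ((i : ℕ) - x) φ t else 0) * iteratedDeriv x (h j) t := by
      rw [Finset.sum_range]
    rw [e2]
    have hsub : Finset.range ((i : ℕ) + 1) ⊆ Finset.range s := by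
      intro x hx
      rw [Finset.mem_range] at hx ⊢
      have := i.2
      omega
    rw [← Finset.sum_subset hsub]
    · apply Finset.sum_congr rfl
      intro x hx
      rw [Finset.mem_range] at hx
      rw [if_pos (by omega)]
      ring
    · intro x _ hx
      rw [Finset.mem_range] at hx
      rw [if_neg (by omega), zero_mul]
  rw [hM, Matrix.det_mul, hL]

lemma Wr_one (h : ℕ → ℝ → ℝ) (s : ℕ) (t : ℝ) (h0 : ∀ᶠ x in 𝓝 t, h 0 x = 1) :
    Wr h (s + 1) t = Wr (fun j => deriv (h (j + 1))) s t := by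
  have hc : ∀ i : ℕ, iteratedDeriv i (h 0) t = if i = 0 then 1 else 0 := by
    intro i
    have : h 0 =ᶠ[𝓝 t] fun _ => (1 : ℝ) := h0
    rw [Filter.EventuallyEq.iteratedDeriv_eq i this, iteratedDeriv_const]
  unfold Wr
  rw [Matrix.det_succ_column_zero, Finset.sum_eq_single 0]
  · simp only [Matrix.of_apply, Fin.val_zero, pow_zero, one_mul]
    rw [hc 0, if_pos rfl, one_mul]
    congr 1
    ext i j
    simp only [Matrix.submatrix_apply, Matrix.of_apply, Fin.succAbove_zero, Fin.val_succ]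
    rw [iteratedDeriv_succ']
  · intro i _ hi
    simp only [Matrix.of_apply, Fin.val_zero]
    have hi' : ((i : Fin (s + 1)) : ℕ) ≠ 0 := fun h => hi (Fin.ext h)
    rw [hc i, if_neg hi', mul_zero, zero_mul]
  · intro hn
    exact absurd (Finset.mem_univ _) hn

/-- the reduction step -/
theorem Wr_succ (h : ℕ → ℝ → ℝ) (s : ℕ) (t : ℝ) (hh : ∀ j < s + 1, ContDiffAt ℝ ∞ (h j) t)
    (h0 : h 0 t ≠ 0) :
    Wr h (s + 1) t =
      h 0 t ^ (s + 1) * Wr (fun j => deriv (fun x => h (j + 1) x / h 0 x)) s t := by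
  have hs0 := hh 0 (by omega)
  have hne : ∀ᶠ x in 𝓝 t, h 0 x ≠ 0 := hs0.continuousAt.eventually_ne h0
  have e1 : Wr h (s + 1) t = Wr (fun j x => h 0 x * (h j x / h 0 x)) (s + 1) t := by
    apply Wr_congr
    intro j _
    filter_upwards [hne] with x hx
    field_simp
  rw [e1, Wr_mul (h 0) (fun j x => h j x / h 0 x) (s + 1) t hs0
    (fun j hj => (hh j hj).div hs0 h0), Wr_one]
  filter_upwards [hne] with x hx
  exact div_self hx

lemma Wr_zero (h : ℕ → ℝ → ℝ) (t : ℝ) : Wr h 0 t = 1 := by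
  simp [Wr]

/-- smoothness of the functions of the reduction step -/
lemma smooth_step {f g : ℝ → ℝ} {t : ℝ} (hf : ContDiffAt ℝ ∞ f t) (hg : ContDiffAt ℝ ∞ g t)
    (h0 : g t ≠ 0) : ContDiffAt ℝ ∞ (deriv (fun x => f x / g x)) t := by
  have h1 : ContDiffAt ℝ ∞ (fun x => f x / g x) t := hf.div hg h0
  have h2 : ContDiffAt ℝ ∞ (fderiv ℝ (fun x => f x / g x)) t := h1.fderiv_right (by simp)
  have h3 : deriv (fun x => f x / g x) = fun x => fderiv ℝ (fun x => f x / g x) x 1 := by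
    funext x
    rfl
  rw [h3]
  exact h2.clm_apply contDiffAt_const

end PC992WC
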