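import Mathlib
import Pool.Agent.Work.MP_992d6e_an.WC.Wr
import Pool.Agent.Work.MP_992d6e_an.WC.Rol

/-!
MODULE Ect (M). Polya's theory: functions with nonvanishing Wronskians form a Chebyshev system.
Both statements by induction with `Wr_succ`.

ect_zeros: induction on `m`, generalising `h` and `c`. `h 0 t ≠ 0` on the interval, as `Wr h 1 t = h 0 t`.
  Put `g j = deriv (h (j+1) / h 0)`; then `Wr g s t ≠ 0` for `1 ≤ s ≤ m`, by Wr_succ. The zeros of
  `∑ c j h j` are those of `G = c 0 + ∑_(j<m) c (j+1) h (j+1) / h 0`. If all `c (j+1)`, `j < m`, are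
  `0`, then `S` is empty. Otherwise Rolle (rolle_finset) gives zeros of `G' = ∑_(j<m) c (j+1) g j`.
ect_dep: induction on `r`. `r = 0`: `h 0 t = Wr h 1 t = 0`. Step: `g r = ∑_(j<r) c j g j` on the
  interval, so `h (r+1)/h 0 - ∑_(j<r) c j h (j+1)/h 0` has derivative `0` on the interval, hence is
  constant there (e.g. is_const_of_deriv_eq_zero on Icc: constant_of_derivWithin_zero or
  Convex.is_const_of_fderivWithin_eq_zero).
-/

namespace PC992WC

open Polynomial Filter Topology
open scoped ContDiff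

lemma Wr_one_eq (h : ℕ → ℝ → ℝ) (t : ℝ) : Wr h 1 t = h 0 t := by
  simp [Wr]

theorem ect_zeros (m : ℕ) (h : ℕ → ℝ → ℝ) (a b : ℝ)
    (hh : ∀ j < m, ∀ t ∈ Set.Icc a b, ContDiffAt ℝ ∞ (h j) t)
    (hW : ∀ s, 1 ≤ s → s ≤ m → ∀ t ∈ Set.Icc a b, Wr h s t ≠ 0)
    (c : ℕ → ℝ) (hc : ∃ j < m, c j ≠ 0) (S : Finset ℝ)
    (hS : ∀ t ∈ S, t ∈ Set.Icc a b ∧ ∑ j ∈ Finset.range m, c j * h j t = 0) :
    S.card < m := by
  induction m generalizing h c S with
  | zero =>
    obtain ⟨j, hj, _⟩ := hc
    omega
  | succ m ih =>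
    have h0 : ∀ t ∈ Set.Icc a b, h 0 t ≠ 0 := by
      intro t ht
      rw [← Wr_one_eq h t]
      exact hW 1 le_rfl (by omega) t ht
    by_cases hall : ∀ j < m, c (j + 1) = 0
    · have hc0 : c 0 ≠ 0 := by
        obtain ⟨j, hj, hcj⟩ := hc
        rcases j with _ | j
        · exact hcj
        · exact absurd (hall j (by omega)) hcj
      have : S = ∅ := by
        rw [Finset.eq_empty_iff_forall_notMem]
        intro t ht
        obtain ⟨h1, h2⟩ := hS t ht
        rw [Finset.sum_range_succ', Finset.sum_eq_zero] at h2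
        · rw [zero_add] at h2
          exact (mul_ne_zero hc0 (h0 t h1)) h2
        · intro j hj
          rw [hall j (Finset.mem_range.mp hj), zero_mul]
      rw [this]
      simp
    · push Not at hall
      set g : ℕ → ℝ → ℝ := fun j => deriv (fun x => h (j + 1) x / h 0 x) with hg
      have hgs : ∀ j < m, ∀ t ∈ Set.Icc a b, ContDiffAt ℝ ∞ (g j) t := by
        intro j hj t ht
        exact smooth_step (hh (j + 1) (by omega) t ht) (hh 0 (by omega) t ht) (h0 t ht)
      have hWg : ∀ s, 1 ≤ s → s ≤ m → ∀ t ∈ Set.Icc a b, Wr g s t ≠ 0 := by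
        intro s hs1 hs2 t ht hz
        apply hW (s + 1) (by omega) (by omega) t ht
        rw [Wr_succ h s t (fun j hj => hh j (by omega) t ht) (h0 t ht)]
        rw [← hg, hz, mul_zero]
      have hder : ∀ t ∈ Set.Icc a b, HasDerivAt
          (fun x => c 0 + ∑ j ∈ Finset.range m, c (j + 1) * (h (j + 1) x / h 0 x))
          (∑ j ∈ Finset.range m, c (j + 1) * g j t) t := by
        intro t ht
        refine HasDerivAt.const_add _ ?_
        refine HasDerivAt.fun_sum fun j hj => ?_
        refine HasDerivAt.const_mul _ ?_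
        have hj := Finset.mem_range.mp hj
        have h1 : ContDiffAt ℝ ∞ (fun x => h (j + 1) x / h 0 x) t :=
          (hh (j + 1) (by omega) t ht).div (hh 0 (by omega) t ht) (h0 t ht)
        exact (h1.differentiableAt (by simp)).hasDerivAt
      have hzero : ∀ t ∈ S, t ∈ Set.Icc a b ∧
          c 0 + ∑ j ∈ Finset.range m, c (j + 1) * (h (j + 1) t / h 0 t) = 0 := by
        intro t ht
        obtain ⟨h1, h2⟩ := hS t ht
        refine ⟨h1, ?_⟩
        rw [Finset.sum_range_succ'] at h2
        have h3 : (c 0 + ∑ j ∈ Finset.range m, c (j + 1) * (h (j + 1) t / h 0 t)) * h 0 t = 0 := by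
          rw [← h2, add_mul, Finset.sum_mul, add_comm]
          congr 1
          apply Finset.sum_congr rfl
          intro j _
          have := h0 t h1
          field_simp
        exact (mul_eq_zero.mp h3).resolve_right (h0 t h1)
      obtain ⟨T, hT, hcard⟩ := rolle_finset hder S hzero
      have := ih g hgs hWg (fun j => c (j + 1)) hall T hT
      omega

theorem ect_dep (r : ℕ) (h : ℕ → ℝ → ℝ) (a b : ℝ)
    (hh : ∀ j ≤ r, ∀ t ∈ Set.Icc a b, ContDiffAt ℝ ∞ (h j) t)
    (hW : ∀ s, 1 ≤ s → s ≤ r → ∀ t ∈ Set.Icc a b, Wr h s t ≠ 0)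
    (h0 : ∀ t ∈ Set.Icc a b, Wr h (r + 1) t = 0) :
    ∃ c : ℕ → ℝ, ∀ t ∈ Set.Icc a b, h r t = ∑ j ∈ Finset.range r, c j * h j t := by
  induction r generalizing h with
  | zero =>
    refine ⟨fun _ => 0, fun t ht => ?_⟩
    rw [Finset.range_zero, Finset.sum_empty, ← Wr_one_eq h t]
    exact h0 t ht
  | succ r ih =>
    rcases lt_or_ge b a with hab | hab
    · refine ⟨fun _ => 0, fun t ht => ?_⟩
      exact absurd (ht.1.trans ht.2) (not_le.mpr hab)
    have hne : ∀ t ∈ Set.Icc a b, h 0 t ≠ 0 := by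
      intro t ht
      rw [← Wr_one_eq h t]
      exact hW 1 le_rfl (by omega) t ht
    set g : ℕ → ℝ → ℝ := fun j => deriv (fun x => h (j + 1) x / h 0 x) with hg
    have hgs : ∀ j ≤ r, ∀ t ∈ Set.Icc a b, ContDiffAt ℝ ∞ (g j) t := by
      intro j hj t ht
      exact smooth_step (hh (j + 1) (by omega) t ht) (hh 0 (by omega) t ht) (hne t ht)
    have hWg : ∀ s, 1 ≤ s → s ≤ r → ∀ t ∈ Set.Icc a b, Wr g s t ≠ 0 := by
      intro s hs1 hs2 t ht hz
      apply hW (s + 1) (by omega) (by omega) t ht
      rw [Wr_succ h s t (fun j hj => hh j (by omega) t ht) (hne t ht)]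
      rw [← hg, hz, mul_zero]
    have hWg0 : ∀ t ∈ Set.Icc a b, Wr g (r + 1) t = 0 := by
      intro t ht
      have := h0 t ht
      rw [Wr_succ h (r + 1) t (fun j hj => hh j (by omega) t ht) (hne t ht)] at this
      exact (mul_eq_zero.mp this).resolve_left (pow_ne_zero _ (hne t ht))
    obtain ⟨c, hc⟩ := ih g hgs hWg hWg0
    have hdq : ∀ j ≤ r, ∀ t ∈ Set.Icc a b,
        HasDerivAt (fun x => h (j + 1) x / h 0 x) (g j t) t := by
      intro j hj t ht
      have h1 : ContDiffAt ℝ ∞ (fun x => h (j + 1) x / h 0 x) t :=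
        (hh (j + 1) (by omega) t ht).div (hh 0 (by omega) t ht) (hne t ht)
      exact (h1.differentiableAt (by simp)).hasDerivAt
    let G : ℝ → ℝ := fun x => h (r + 1) x / h 0 x -
      ∑ j ∈ Finset.range r, c j * (h (j + 1) x / h 0 x)
    have hG : ∀ t ∈ Set.Icc a b, HasDerivAt G 0 t := by
      intro t ht
      have h2 : HasDerivAt G (g r t - ∑ j ∈ Finset.range r, c j * g j t) t := by
        refine (hdq r le_rfl t ht).sub ?_
        refine HasDerivAt.fun_sum fun j hj => ?_
        exact (hdq j (Finset.mem_range.mp hj).le t ht).const_mul _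
      rw [hc t ht, sub_self] at h2
      exact h2
    have hconst : ∀ t ∈ Set.Icc a b, G t = G a := by
      apply constant_of_has_deriv_right_zero
      · intro t ht
        exact (hG t ht).continuousAt.continuousWithinAt
      · intro t ht
        exact (hG t ⟨ht.1, ht.2.le⟩).hasDerivWithinAt
    refine ⟨fun j => if j = 0 then G a else c (j - 1), fun t ht => ?_⟩
    have h1 := hconst t ht
    have h2 : h (r + 1) t = G a * h 0 t + ∑ j ∈ Finset.range r, c j * h (j + 1) t := by
      rw [← h1]
      simp only [G]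
      have := hne t ht
      rw [sub_mul, Finset.sum_mul]
      have e1 : ∑ j ∈ Finset.range r, c j * (h (j + 1) t / h 0 t) * h 0 t =
          ∑ j ∈ Finset.range r, c j * h (j + 1) t := by
        apply Finset.sum_congr rfl
        intro j _
        field_simp
      rw [e1]
      field_simp
      ring
    rw [h2, Finset.sum_range_succ']
    simp only [Nat.add_eq_zero_iff, one_ne_zero, and_false, if_false, Nat.add_sub_cancel, if_true]
    ring

end PC992WC
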