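import Mathlib
import Pool.Agent.Work.MP_992d6e_an.WC.Defs

/-!
MODULE Deg (M). The Wronskian of `t^(k j) (P j)^(-3/2)` is a positive function times a polynomial of
degree at most `2 s^2` (Mathlib only).

Rp k P i: `R 0 = X^k`, `R (i+1) = (R i)' P - (3/2 + i) P' (R i)`; `natDegree (R i) ≤ i + 1` for
`k ≤ 1`, `natDegree P ≤ 2` (if `natDegree (R i) = 0` then `(R i)' = 0`).
iteratedDeriv_pf: for `P(t) > 0`: `iteratedDeriv i (pf k P) t = R_i(t) * P(t)^(-(3/2) - i)` by
induction on `i` (iteratedDeriv_succ; the formula for `i` holds in a neighbourhood of `t`;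
Real.hasDerivAt_rpow_const or HasDerivAt.rpow_const).
Wr_poly: `Q = det (P j ^ (s-1-i) * R_(i,j))`, entries of natDegree at most `2 s`; multiply column `j`
by `P_j(t)^(-(3/2) - (s-1))` (Matrix.det_mul_row / det_mul_column); `eval` of a determinant:
`RingHom.map_det (Polynomial.evalRingHom t)`. Degree: Matrix.det_apply, natDegree_sum_le, natDegree_prod_le.
-/

namespace PC992WC

open Polynomial Filter Topology
open scoped ContDiff

noncomputable def Rp (k : ℕ) (P : ℝ[X]) : ℕ → ℝ[X]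
  | 0 => X ^ k
  | i + 1 => derivative (Rp k P i) * P - C (3 / 2 + (i : ℝ)) * derivative P * Rp k P i

lemma natDegree_Rp {k : ℕ} (hk : k ≤ 1) {P : ℝ[X]} (hP : P.natDegree ≤ 2) (i : ℕ) :
    (Rp k P i).natDegree ≤ i + 1 := by
  induction i with
  | zero =>
    simp only [Rp, natDegree_X_pow]
    omega
  | succ i ih =>
    rw [Rp]
    refine (natDegree_sub_le _ _).trans (max_le ?_ ?_)
    · by_cases h0 : (Rp k P i).natDegree = 0
      · rw [derivative_of_natDegree_zero h0, zero_mul, natDegree_zero]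
        omega
      · refine natDegree_mul_le.trans ?_
        have := natDegree_derivative_lt h0
        omega
    · refine natDegree_mul_le.trans ?_
      have h1 : (C (3 / 2 + (i : ℝ)) * derivative P).natDegree ≤ 1 := by
        refine (natDegree_C_mul_le _ _).trans ?_
        have := natDegree_derivative_le P
        omega
      omega

lemma eventually_pos (P : ℝ[X]) {t : ℝ} (ht : 0 < P.eval t) : ∀ᶠ x in 𝓝 t, 0 < P.eval x :=
  P.continuous.continuousAt.eventually (lt_mem_nhds ht)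

lemma iteratedDeriv_pf (k : ℕ) (P : ℝ[X]) (i : ℕ) {t : ℝ} (ht : 0 < P.eval t) :
    iteratedDeriv i (pf k P) t = (Rp k P i).eval t * (P.eval t) ^ (-(3 / 2) - (i : ℝ)) := by
  induction i generalizing t with
  | zero =>
    rw [iteratedDeriv_zero]
    simp [pf, Rp]
  | succ i ih =>
    rw [iteratedDeriv_succ]
    have hev : iteratedDeriv i (pf k P) =ᶠ[𝓝 t]
        fun x => (Rp k P i).eval x * (P.eval x) ^ (-(3 / 2) - (i : ℝ)) := by
      filter_upwards [eventually_pos P ht] with x hx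
      exact ih hx
    rw [hev.deriv_eq]
    have h1 := (Rp k P i).hasDerivAt t
    have h2 := (P.hasDerivAt t).rpow_const (p := -(3 / 2) - (i : ℝ)) (Or.inl ht.ne')
    have h3 := h1.mul h2
    have h4 : deriv (fun x => (Rp k P i).eval x * (P.eval x) ^ (-(3 / 2) - (i : ℝ))) t = _ :=
      h3.deriv
    rw [h4, Rp]
    have e1 : (P.eval t) ^ (-(3 / 2) - (i : ℝ)) =
        P.eval t * (P.eval t) ^ (-(3 / 2) - ((i + 1 : ℕ) : ℝ)) := by
      rw [mul_comm, ← Real.rpow_add_one ht.ne']
      congr 1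
      push_cast
      ring
    have e2 : (-(3 / 2) - (i : ℝ) - 1) = -(3 / 2) - ((i + 1 : ℕ) : ℝ) := by
      push_cast
      ring
    rw [e2, e1]
    simp only [eval_sub, eval_mul, eval_C]
    ring

lemma pf_smooth (k : ℕ) (P : ℝ[X]) {t : ℝ} (ht : 0 < P.eval t) :
    ContDiffAt ℝ ∞ (pf k P) t := by
  unfold pf
  refine ContDiffAt.mul ?_ ?_
  · exact contDiffAt_id.pow k
  · have h1 : ContDiff ℝ ∞ (fun x : ℝ => P.eval x) := by
      simpa using Polynomial.contDiff_aeval (𝕜 := ℝ) P ∞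
    exact ContDiffAt.rpow_const_of_ne h1.contDiffAt ht.ne'

theorem Wr_poly (s : ℕ) (k : ℕ → ℕ) (P : ℕ → ℝ[X]) (hk : ∀ j < s, k j ≤ 1)
    (hP : ∀ j < s, (P j).natDegree ≤ 2) :
    ∃ Q : ℝ[X], Q.natDegree ≤ 2 * s ^ 2 ∧
      ∀ t : ℝ, (∀ j < s, 0 < (P j).eval t) →
        ∃ c : ℝ, 0 < c ∧ Wr (fun j => pf (k j) (P j)) s t = c * Q.eval t := by
  classical
  let A : Matrix (Fin s) (Fin s) ℝ[X] :=
    Matrix.of (fun i j : Fin s => (P j) ^ (s - 1 - (i : ℕ)) * Rp (k j) (P j) i)
  have hA : ∀ i j, (A i j).natDegree ≤ 2 * s := by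
    intro i j
    simp only [A, Matrix.of_apply]
    refine natDegree_mul_le.trans ?_
    have h1 : ((P j) ^ (s - 1 - (i : ℕ))).natDegree ≤ (s - 1 - (i : ℕ)) * 2 := by
      refine natDegree_pow_le.trans ?_
      exact Nat.mul_le_mul_left _ (hP j j.2)
    have h2 := natDegree_Rp (hk j j.2) (hP j j.2) i
    have := i.2
    omega
  refine ⟨A.det, ?_, ?_⟩
  · rw [Matrix.det_apply]
    refine natDegree_sum_le_of_forall_le _ _ fun σ _ => ?_
    have h1 : (Equiv.Perm.sign σ • ∏ i, A (σ i) i).natDegree ≤ (∏ i, A (σ i) i).natDegree := by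
      rcases Int.units_eq_one_or (Equiv.Perm.sign σ) with h | h
      · rw [h, one_smul]
      · rw [h, Units.neg_smul, one_smul, natDegree_neg]
    refine h1.trans ?_
    refine (natDegree_prod_le _ _).trans ?_
    refine (Finset.sum_le_card_nsmul _ _ (2 * s) fun i _ => hA _ _).trans ?_
    simp only [Finset.card_univ, Fintype.card_fin, smul_eq_mul]
    exact le_of_eq (by ring)
  · intro t ht
    refine ⟨∏ j : Fin s, ((P j).eval t) ^ (-(3 / 2) - ((s - 1 : ℕ) : ℝ)),
      Finset.prod_pos fun j _ => Real.rpow_pos_of_pos (ht j j.2) _, ?_⟩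
    have e1 : A.det.eval t = (A.map (fun p => p.eval t)).det := by
      have := RingHom.map_det (Polynomial.evalRingHom t) A
      simpa using this
    rw [e1, ← Matrix.det_mul_row]
    unfold Wr
    congr 1
    ext i j
    simp only [Matrix.of_apply, Matrix.map_apply, A, eval_mul, eval_pow]
    rw [iteratedDeriv_pf _ _ _ (ht j j.2)]
    have hi := i.2
    have e2 : ((P j).eval t) ^ (-(3 / 2) - ((i : ℕ) : ℝ)) =
        ((P j).eval t) ^ (-(3 / 2) - ((s - 1 : ℕ) : ℝ)) * ((P j).eval t) ^ (s - 1 - (i : ℕ)) := by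
      rw [← Real.rpow_add_natCast (ht j j.2).ne']
      congr 1
      have : ((s - 1 - (i : ℕ) : ℕ) : ℝ) = ((s - 1 : ℕ) : ℝ) - ((i : ℕ) : ℝ) := by
        rw [Nat.cast_sub (by omega)]
      rw [this]
      ring
    rw [e2]
    ring

end PC992WC
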