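import Mathlib
import Pool.Agent.Work.MP_992d6e_an.WC.Ect
import Pool.Agent.Work.MP_992d6e_an.WC.Deg

/-!
MODULE Sel (M). Greedy selection of functions with nonzero Wronskian polynomials.

Induction on `N`. `N = 0`: `r = 0`. Step: let `r, k', P', Q` be the selection for the first `N`
functions, `k'' = Function.update k' r (k N)`, `P'' = Function.update P' r (P N)`; `Wr_poly` (s = r+1)
gives a polynomial `Q'`. If `Q' = 0` keep the selection: on an interval as in the last clause
`Wr (r+1) = 0`, so `ect_dep` (with the functions `pf (k'' j) (P'' j)`) shows that function `N` is a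
combination. If `Q' ≠ 0` the new selection is `r+1, k'', P''`, `Function.update Q (r+1) Q'`; old
functions: extend `c` by `0` at `r`; function `N`: indicator of `r`. `Wr_congr` compares the
Wronskians of order `s ≤ r` before and after the update.
-/

namespace PC992WC

open Polynomial Filter Topology
open scoped ContDiff

theorem selection (N : ℕ) (k : ℕ → ℕ) (P : ℕ → ℝ[X]) (hk : ∀ i < N, k i ≤ 1)
    (hP : ∀ i < N, (P i).natDegree ≤ 2) :
    ∃ (r : ℕ) (k' : ℕ → ℕ) (P' Q : ℕ → ℝ[X]), r ≤ N ∧
      (∀ j < r, ∃ i < N, k' j = k i ∧ P' j = P i) ∧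
      (∀ s, 1 ≤ s → s ≤ r → Q s ≠ 0 ∧ (Q s).natDegree ≤ 2 * s ^ 2 ∧
        ∀ t : ℝ, (∀ j < s, 0 < (P' j).eval t) →
          ∃ c : ℝ, 0 < c ∧ Wr (fun j => pf (k' j) (P' j)) s t = c * (Q s).eval t) ∧
      (∀ a b : ℝ, (∀ t ∈ Set.Icc a b, (∀ i < N, 0 < (P i).eval t) ∧
          ∀ s, 1 ≤ s → s ≤ r → (Q s).eval t ≠ 0) →
        ∀ i < N, ∃ c : ℕ → ℝ, ∀ t ∈ Set.Icc a b,
          pf (k i) (P i) t = ∑ j ∈ Finset.range r, c j * pf (k' j) (P' j) t) := by
  induction N with
  | zero =>
    refine ⟨0, fun _ => 0, fun _ => 0, fun _ => 0, le_rfl, ?_, ?_, ?_⟩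
    · intro j hj
      omega
    · intro s h1 h2
      omega
    · intro a b _ i hi
      omega
  | succ N ih =>
    obtain ⟨r, k', P', Q, hr, h1, h2, h3⟩ := ih (fun i hi => hk i (by omega))
      (fun i hi => hP i (by omega))
    set k'' : ℕ → ℕ := Function.update k' r (k N) with hk''
    set P'' : ℕ → ℝ[X] := Function.update P' r (P N) with hP''
    have ek : ∀ j, j ≠ r → k'' j = k' j := fun j hj => Function.update_of_ne hj _ _
    have eP : ∀ j, j ≠ r → P'' j = P' j := fun j hj => Function.update_of_ne hj _ _
    have ekr : k'' r = k N := Function.update_self _ _ _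
    have ePr : P'' r = P N := Function.update_self _ _ _
    have h1'' : ∀ j < r + 1, ∃ i < N + 1, k'' j = k i ∧ P'' j = P i := by
      intro j hj
      rcases Nat.lt_succ_iff_lt_or_eq.mp hj with hj | rfl
      · obtain ⟨i, hi, e1, e2⟩ := h1 j hj
        exact ⟨i, by omega, by rw [ek j (by omega), e1], by rw [eP j (by omega), e2]⟩
      · exact ⟨N, by omega, ekr, ePr⟩
    have hWeq : ∀ s ≤ r, ∀ t, Wr (fun j => pf (k'' j) (P'' j)) s t =
        Wr (fun j => pf (k' j) (P' j)) s t := by
      intro s hs t
      apply Wr_congr
      intro j hj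
      rw [ek j (by omega), eP j (by omega)]
    have hpos : ∀ t, (∀ i < N + 1, 0 < (P i).eval t) → ∀ j < r + 1, 0 < (P'' j).eval t := by
      intro t ht j hj
      obtain ⟨i, hi, _, e2⟩ := h1'' j hj
      rw [e2]
      exact ht i hi
    obtain ⟨Q', hQd, hQ⟩ := Wr_poly (r + 1) k'' P''
      (by
        intro j hj
        obtain ⟨i, hi, e1, _⟩ := h1'' j hj
        rw [e1]
        exact hk i hi)
      (by
        intro j hj
        obtain ⟨i, hi, _, e2⟩ := h1'' j hj
        rw [e2]
        exact hP i hi)
    by_cases hQ0 : Q' = 0
    · refine ⟨r, k', P', Q, by omega, ?_, h2, ?_⟩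
      · intro j hj
        obtain ⟨i, hi, e1, e2⟩ := h1 j hj
        exact ⟨i, by omega, e1, e2⟩
      · intro a b hab i hi
        rcases Nat.lt_succ_iff_lt_or_eq.mp hi with hi | rfl
        · exact h3 a b (fun t ht => ⟨fun i hi => (hab t ht).1 i (by omega), (hab t ht).2⟩) i hi
        · obtain ⟨c, hc⟩ := ect_dep r (fun j => pf (k'' j) (P'' j)) a b
            (fun j hj t ht => pf_smooth _ _ (hpos t (hab t ht).1 j (by omega)))
            (by
              intro s hs1 hs2 t ht
              rw [hWeq s hs2 t]
              obtain ⟨hs3, _, hs5⟩ := h2 s hs1 hs2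
              obtain ⟨c, hc, e⟩ := hs5 t (by
                intro j hj
                have := hpos t (hab t ht).1 j (by omega)
                rwa [eP j (by omega)] at this)
              rw [e]
              exact mul_ne_zero hc.ne' ((hab t ht).2 s hs1 hs2))
            (by
              intro t ht
              obtain ⟨c, hc, e⟩ := hQ t (hpos t (hab t ht).1)
              rw [e, hQ0, eval_zero, mul_zero])
          refine ⟨c, fun t ht => ?_⟩
          have := hc t ht
          simp only [ekr, ePr] at this
          rw [this]
          apply Finset.sum_congr rfl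
          intro j hj
          have hj := Finset.mem_range.mp hj
          rw [ek j (by omega), eP j (by omega)]
    · refine ⟨r + 1, k'', P'', Function.update Q (r + 1) Q', by omega, h1'', ?_, ?_⟩
      · intro s hs1 hs2
        rcases Nat.lt_succ_iff_lt_or_eq.mp (Nat.lt_succ_of_le hs2) with hs | rfl
        · rw [Function.update_of_ne (by omega)]
          obtain ⟨a1, a2, a3⟩ := h2 s hs1 (by omega)
          refine ⟨a1, a2, ?_⟩
          intro t ht
          rw [hWeq s (by omega) t]
          apply a3
          intro j hj
          have := ht j hj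
          rwa [eP j (by omega)] at this
        · rw [Function.update_self]
          exact ⟨hQ0, hQd, hQ⟩
      · intro a b hab i hi
        rcases Nat.lt_succ_iff_lt_or_eq.mp hi with hi | rfl
        · obtain ⟨c, hc⟩ := h3 a b (fun t ht => ⟨fun i hi => (hab t ht).1 i (by omega), by
            intro s hs1 hs2
            have := (hab t ht).2 s hs1 (by omega)
            rwa [Function.update_of_ne (by omega)] at this⟩) i hi
          refine ⟨fun j => if j < r then c j else 0, fun t ht => ?_⟩
          rw [hc t ht, Finset.sum_range_succ]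
          simp only [lt_irrefl, if_false, zero_mul, add_zero]
          apply Finset.sum_congr rfl
          intro j hj
          have hj := Finset.mem_range.mp hj
          rw [if_pos hj, ek j (by omega), eP j (by omega)]
        · refine ⟨fun j => if j = r then 1 else 0, fun t ht => ?_⟩
          rw [Finset.sum_range_succ, Finset.sum_eq_zero]
          · simp [ekr, ePr]
          · intro j hj
            have hj := Finset.mem_range.mp hj
            have hjr : j ≠ r := by omega
            simp [hjr]

end PC992WC
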