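import Mathlib
import Pool.Agent.Work.MP_992d6e_an.WC.Sel

/-!
MODULE Cnt (M). Number of simple zeros of `∑_j (α_j + β_j t) P_j(t)^(-3/2)`.

Apply `selection` with `N = 2n` (index `i`: `P_(i/2)`, `k = i % 2`). `B` = union of the root sets of the
`Q s`, `1 ≤ s ≤ r`, and of the `P j`: `|B| ≤ r * (2 r^2) + 2 n ≤ 18 n^3` (r ≤ 2n). For `t ∈ S \ B` let
`ν t = #{b ∈ B, b < t} ≤ |B|`. If `t1 < t2` in `S \ B` have the same `ν`, no point of `B` is in
`[t1,t2]`, so by the intermediate value theorem all `P_j > 0` and all `Q_s ≠ 0` on `[t1,t2]`. Let `F` be a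
fibre of `ν`, with minimum `a` and maximum `b`, `a < b`. On `[a,b]`, `f = ∑_(j<r) c j * (selected functions)`.
If all `c j = 0`, `f = 0` on `[a,b]`, so `deriv f a = 0` (f is differentiable at `a`;
e.g. `uniqueDiffOn_Icc` and derivWithin), contradiction. So some `c j ≠ 0` and `ect_zeros` gives
`#F < r ≤ 2n`. Hence `#F ≤ 2n` always (also if `#F ≤ 1`), and
`#S ≤ |B| + 2n (|B| + 1) ≤ 18n^3 + 36n^4 + 2n ≤ 56 n^4`
(Finset.card_le_mul_card_image).
-/

namespace PC992WC

open Polynomial Filter Topology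
open scoped ContDiff

/-- one fibre -/
lemma fibre_count (n : ℕ) (hn : 0 < n) (α β : Fin n → ℝ) (P : Fin n → ℝ[X]) (r : ℕ) (hr : r ≤ 2 * n)
    (k' : ℕ → ℕ) (P' Q : ℕ → ℝ[X]) (h1 : ∀ j < r, ∃ i, P' j = P i)
    (h2 : ∀ s, 1 ≤ s → s ≤ r → ∀ t : ℝ, (∀ j < s, 0 < (P' j).eval t) →
          ∃ c : ℝ, 0 < c ∧ Wr (fun j => pf (k' j) (P' j)) s t = c * (Q s).eval t)
    (a b : ℝ) (hab : ∀ t ∈ Set.Icc a b, (∀ j, 0 < (P j).eval t) ∧
      ∀ s, 1 ≤ s → s ≤ r → (Q s).eval t ≠ 0)
    (h3 : ∀ j : Fin n, ∀ e ≤ 1, ∃ c : ℕ → ℝ, ∀ t ∈ Set.Icc a b,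
          pf e (P j) t = ∑ l ∈ Finset.range r, c l * pf (k' l) (P' l) t)
    (F : Finset ℝ) (haF : a ∈ F)
    (hF : ∀ t ∈ F, t ∈ Set.Icc a b ∧
      ∑ j, (α j + β j * t) * ((P j).eval t) ^ (-(3 / 2) : ℝ) = 0 ∧
      deriv (fun t => ∑ j, (α j + β j * t) * ((P j).eval t) ^ (-(3 / 2) : ℝ)) t ≠ 0) :
    F.card ≤ 2 * n := by
  classical
  set f : ℝ → ℝ := fun t => ∑ j, (α j + β j * t) * ((P j).eval t) ^ (-(3 / 2) : ℝ) with hf
  have hab' : a ≤ b := (hF a haF).1.2
  rcases hab'.eq_or_lt with rfl | hlt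
  · have : F ⊆ {a} := by
      intro t ht
      have := (hF t ht).1
      rw [Finset.mem_singleton]
      exact le_antisymm this.2 this.1
    have := Finset.card_le_card this
    rw [Finset.card_singleton] at this
    omega
  choose c0 hc0 using fun j => h3 j 0 (by omega)
  choose c1 hc1 using fun j => h3 j 1 le_rfl
  let c : ℕ → ℝ := fun l => ∑ j, (α j * c0 j l + β j * c1 j l)
  have hfc : ∀ t ∈ Set.Icc a b, f t = ∑ l ∈ Finset.range r, c l * pf (k' l) (P' l) t := by
    intro t ht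
    have e : ∀ j, (α j + β j * t) * ((P j).eval t) ^ (-(3 / 2) : ℝ) =
        ∑ l ∈ Finset.range r, (α j * c0 j l + β j * c1 j l) * pf (k' l) (P' l) t := by
      intro j
      have e0 := hc0 j t ht
      have e1 := hc1 j t ht
      have : (α j + β j * t) * ((P j).eval t) ^ (-(3 / 2) : ℝ) =
          α j * pf 0 (P j) t + β j * pf 1 (P j) t := by
        unfold pf
        ring
      rw [this, e0, e1, Finset.mul_sum, Finset.mul_sum, ← Finset.sum_add_distrib]
      apply Finset.sum_congr rfl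
      intro l _
      ring
    simp only [hf, c]
    rw [Finset.sum_congr rfl (fun j _ => e j), Finset.sum_comm]
    apply Finset.sum_congr rfl
    intro l _
    rw [Finset.sum_mul]
  have hpos' : ∀ t ∈ Set.Icc a b, ∀ j < r, 0 < (P' j).eval t := by
    intro t ht j hj
    obtain ⟨i, hi⟩ := h1 j hj
    rw [hi]
    exact (hab t ht).1 i
  by_cases hall : ∃ l < r, c l ≠ 0
  · have := ect_zeros r (fun l => pf (k' l) (P' l)) a b
      (fun j hj t ht => pf_smooth _ _ (hpos' t ht j hj))
      (by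
        intro s hs1 hs2 t ht
        obtain ⟨c, hc, e⟩ := h2 s hs1 hs2 t (fun j hj => hpos' t ht j (by omega))
        rw [e]
        exact mul_ne_zero hc.ne' ((hab t ht).2 s hs1 hs2)) c hall F
      (by
        intro t ht
        obtain ⟨a1, a2, _⟩ := hF t ht
        refine ⟨a1, ?_⟩
        rw [← hfc t a1]
        exact a2)
    omega
  · exfalso
    push Not at hall
    have hz : ∀ t ∈ Set.Icc a b, f t = 0 := by
      intro t ht
      rw [hfc t ht]
      apply Finset.sum_eq_zero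
      intro l hl
      rw [hall l (Finset.mem_range.mp hl), zero_mul]
    have haI : a ∈ Set.Icc a b := ⟨le_rfl, hab'⟩
    have hdiff : DifferentiableAt ℝ f a := by
      simp only [hf]
      refine DifferentiableAt.fun_sum fun j _ => ?_
      refine DifferentiableAt.mul (by fun_prop) ?_
      exact DifferentiableAt.rpow_const (P j).differentiable.differentiableAt
        (Or.inl ((hab a haI).1 j).ne')
    have d1 : HasDerivWithinAt f (deriv f a) (Set.Icc a b) a := hdiff.hasDerivAt.hasDerivWithinAt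
    have d2 : HasDerivWithinAt f 0 (Set.Icc a b) a :=
      (hasDerivWithinAt_const a (Set.Icc a b) (0 : ℝ)).congr (fun t ht => hz t ht) (hz a haI)
    have := (uniqueDiffOn_Icc hlt a haI).eq_deriv _ d1 d2
    exact (hF a haF).2.2 this

theorem line_count (n : ℕ) (hn : 0 < n) (α β : Fin n → ℝ) (P : Fin n → ℝ[X])
    (hP : ∀ j, (P j).natDegree ≤ 2) (hP0 : ∀ j, P j ≠ 0) (S : Finset ℝ)
    (hS : ∀ t ∈ S, (∀ j, 0 < (P j).eval t) ∧
      ∑ j, (α j + β j * t) * ((P j).eval t) ^ (-(3 / 2) : ℝ) = 0 ∧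
      deriv (fun t => ∑ j, (α j + β j * t) * ((P j).eval t) ^ (-(3 / 2) : ℝ)) t ≠ 0) :
    S.card ≤ 56 * n ^ 4 := by
  classical
  let PP : ℕ → ℝ[X] := fun i => if h : i / 2 < n then P ⟨i / 2, h⟩ else 1
  have hPP : ∀ i < 2 * n, ∃ j, PP i = P j := by
    intro i hi
    have : i / 2 < n := by omega
    exact ⟨⟨i / 2, this⟩, by simp only [PP]; rw [dif_pos this]⟩
  have hPPj : ∀ j : Fin n, ∀ e ≤ 1, PP (2 * j + e) = P j ∧ (2 * (j : ℕ) + e) % 2 = e ∧
      2 * (j : ℕ) + e < 2 * n := by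
    intro j e he
    have h1 : (2 * (j : ℕ) + e) / 2 = j := by omega
    have h2 : (2 * (j : ℕ) + e) / 2 < n := by
      have := j.2
      omega
    refine ⟨?_, by omega, by have := j.2; omega⟩
    simp only [PP]
    rw [dif_pos h2]
    congr 1
    exact Fin.ext h1
  obtain ⟨r, k', P', Q, hr, h1, h2, h3⟩ := selection (2 * n) (fun i => i % 2) PP
    (fun i _ => by omega)
    (fun i hi => by
      obtain ⟨j, hj⟩ := hPP i hi
      rw [hj]
      exact hP j)
  let B : Finset ℝ := (Finset.Icc 1 r).biUnion (fun s => (Q s).roots.toFinset) ∪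
    Finset.univ.biUnion (fun j => (P j).roots.toFinset)
  have hroots : ∀ p : ℝ[X], p.roots.toFinset.card ≤ p.natDegree := fun p =>
    (Multiset.toFinset_card_le _).trans (Polynomial.card_roots' p)
  have hB : B.card ≤ 18 * n ^ 3 := by
    have b1 : ((Finset.Icc 1 r).biUnion (fun s => (Q s).roots.toFinset)).card ≤ r * (2 * r ^ 2) := by
      refine (Finset.card_biUnion_le_card_mul _ _ (2 * r ^ 2) ?_).trans ?_
      · intro s hs
        rw [Finset.mem_Icc] at hs
        refine (hroots _).trans ((h2 s hs.1 hs.2).2.1.trans ?_)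
        exact Nat.mul_le_mul_left _ (Nat.pow_le_pow_left hs.2 2)
      · rw [Nat.card_Icc]
        exact Nat.mul_le_mul_right _ (by omega)
    have b2 : (Finset.univ.biUnion (fun j => (P j).roots.toFinset)).card ≤ n * 2 := by
      refine (Finset.card_biUnion_le_card_mul _ _ 2 ?_).trans ?_
      · intro j _
        exact (hroots _).trans (hP j)
      · simp
    have b3 : r * (2 * r ^ 2) ≤ 16 * n ^ 3 := by
      calc r * (2 * r ^ 2) = 2 * r ^ 3 := by ring
        _ ≤ 2 * (2 * n) ^ 3 := Nat.mul_le_mul_left _ (Nat.pow_le_pow_left hr 3)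
        _ = 16 * n ^ 3 := by ring
    have b4 : n * 2 ≤ 2 * n ^ 3 := by
      have : n ≤ n ^ 3 := Nat.le_self_pow (by norm_num) n
      omega
    have := Finset.card_union_le ((Finset.Icc 1 r).biUnion (fun s => (Q s).roots.toFinset))
      (Finset.univ.biUnion (fun j => (P j).roots.toFinset))
    calc B.card ≤ _ := this
      _ ≤ 18 * n ^ 3 := by omega
  have hBQ : ∀ t, t ∉ B → ∀ s, 1 ≤ s → s ≤ r → (Q s).eval t ≠ 0 := by
    intro t ht s hs1 hs2 h0
    apply ht
    apply Finset.mem_union_left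
    rw [Finset.mem_biUnion]
    refine ⟨s, Finset.mem_Icc.mpr ⟨hs1, hs2⟩, ?_⟩
    rw [Multiset.mem_toFinset, Polynomial.mem_roots (h2 s hs1 hs2).1]
    exact h0
  have hBP : ∀ t, t ∉ B → ∀ j, (P j).eval t ≠ 0 := by
    intro t ht j h0
    apply ht
    apply Finset.mem_union_right
    rw [Finset.mem_biUnion]
    refine ⟨j, Finset.mem_univ _, ?_⟩
    rw [Multiset.mem_toFinset, Polynomial.mem_roots (hP0 j)]
    exact h0
  let ν : ℝ → ℕ := fun t => (B.filter (fun b => b < t)).card
  have hfib : ∀ v ∈ (S \ B).image ν, ((S \ B).filter (fun t => ν t = v)).card ≤ 2 * n := by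
    intro v _
    set F := (S \ B).filter (fun t => ν t = v) with hFdef
    rcases F.eq_empty_or_nonempty with h0 | hne
    · rw [h0]
      simp
    set a := F.min' hne with ha
    set b := F.max' hne with hb
    have haF : a ∈ F := F.min'_mem hne
    have hbF : b ∈ F := F.max'_mem hne
    have hFI : ∀ t ∈ F, t ∈ Set.Icc a b := fun t ht => ⟨F.min'_le t ht, F.le_max' t ht⟩
    have hFm : ∀ t ∈ F, t ∈ S ∧ t ∉ B ∧ ν t = v := by
      intro t ht
      rw [hFdef, Finset.mem_filter, Finset.mem_sdiff] at ht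
      exact ⟨ht.1.1, ht.1.2, ht.2⟩
    have hIB : ∀ t ∈ Set.Icc a b, t ∉ B := by
      intro t ht htB
      rcases ht.2.eq_or_lt with rfl | hlt
      · exact (hFm b hbF).2.1 htB
      · have hss : B.filter (fun x => x < a) ⊂ B.filter (fun x => x < b) := by
          rw [Finset.ssubset_iff_of_subset]
          · refine ⟨t, Finset.mem_filter.mpr ⟨htB, hlt⟩, ?_⟩
            rw [Finset.mem_filter]
            exact fun h => absurd h.2 (not_lt.mpr ht.1)
          · intro x hx
            rw [Finset.mem_filter] at hx ⊢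
            exact ⟨hx.1, hx.2.trans_le (ht.1.trans ht.2)⟩
        have := Finset.card_lt_card hss
        have e1 := (hFm a haF).2.2
        have e2 := (hFm b hbF).2.2
        simp only [ν] at e1 e2
        omega
    have hIP : ∀ t ∈ Set.Icc a b, ∀ j, 0 < (P j).eval t := by
      intro t ht j
      by_contra hcon
      push Not at hcon
      have hpa : 0 < (P j).eval a := (hS a (hFm a haF).1).1 j
      obtain ⟨z, hz, hz0⟩ := intermediate_value_Icc' ht.1
        ((P j).continuous.continuousOn (s := Set.Icc a t)) ⟨hcon, hpa.le⟩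
      exact hBP z (hIB z ⟨hz.1, hz.2.trans ht.2⟩) j hz0
    have hab : ∀ t ∈ Set.Icc a b, (∀ j, 0 < (P j).eval t) ∧
        ∀ s, 1 ≤ s → s ≤ r → (Q s).eval t ≠ 0 := fun t ht => ⟨hIP t ht, hBQ t (hIB t ht)⟩
    refine fibre_count n hn α β P r hr k' P' Q ?_ (fun s hs1 hs2 => (h2 s hs1 hs2).2.2) a b hab ?_
      F haF ?_
    · intro j hj
      obtain ⟨i, hi, _, e⟩ := h1 j hj
      obtain ⟨l, hl⟩ := hPP i hi
      exact ⟨l, by rw [e, hl]⟩
    · intro j e he
      obtain ⟨p1, p2, p3⟩ := hPPj j e he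
      have := h3 a b (fun t ht => ⟨fun i hi => by
        obtain ⟨l, hl⟩ := hPP i hi
        rw [hl]
        exact hIP t ht l, (hab t ht).2⟩) (2 * j + e) p3
      rw [p1, p2] at this
      exact this
    · intro t ht
      obtain ⟨a1, a2, a3⟩ := hS t (hFm t ht).1
      exact ⟨hFI t ht, a2, a3⟩
  have hc1 : (S \ B).card ≤ 2 * n * ((S \ B).image ν).card :=
    Finset.card_le_mul_card_image _ _ hfib
  have hc2 : ((S \ B).image ν).card ≤ B.card + 1 := by
    have : (S \ B).image ν ⊆ Finset.range (B.card + 1) := by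
      intro v hv
      rw [Finset.mem_image] at hv
      obtain ⟨t, _, rfl⟩ := hv
      rw [Finset.mem_range]
      exact Nat.lt_succ_of_le (Finset.card_filter_le _ _)
    have := Finset.card_le_card this
    rwa [Finset.card_range] at this
  have hc3 : S.card ≤ B.card + (S \ B).card := by
    have := Finset.card_le_card (Finset.subset_union_right (s₁ := B) (s₂ := S))
    rw [← Finset.union_sdiff_self_eq_union] at this
    exact this.trans (Finset.card_union_le _ _)
  have hn3 : n ^ 3 ≤ n ^ 4 := Nat.pow_le_pow_right hn (by norm_num)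
  have hn1 : n ≤ n ^ 4 := Nat.le_self_pow (by norm_num) n
  calc S.card ≤ B.card + (S \ B).card := hc3
    _ ≤ 18 * n ^ 3 + 2 * n * (18 * n ^ 3 + 1) := by
      refine Nat.add_le_add hB (hc1.trans (Nat.mul_le_mul_left _ (hc2.trans (by omega))))
    _ = 18 * n ^ 3 + 36 * n ^ 4 + 2 * n := by ring
    _ ≤ 56 * n ^ 4 := by omega

end PC992WC
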