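import Mathlib
import Pool.Agent.Work.MP_992d6e_an.WC.Cnt

/-!
MODULE Pot (M). Derivatives of the potential along lines; the ray count.

contDiffAt_potential: as in Final.lean (`potential_contDiffAt`), now of class `C^∞`
  (contDiffAt_norm, ContDiffAt.sum).
hess_eq: `iteratedFDeriv_two_apply`.
fderiv_potential: derivative of `y ↦ q_j / dist y (a_j)` in direction `e` is `- q_j ⟪y - a_j, e⟫ / ‖y - a_j‖^3`.
hasDerivAt_line: chain rule for `t ↦ fderiv V (x + t w) e`.
ray_count: `P_j = ‖w‖^2 X^2 + 2 ⟪a p - a j, w⟫ X + ‖a p - a j‖^2`, so `P_j(t) = ‖a p + t w - a j‖^2`;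
  `α_j = - q_j ⟪a p - a j, e⟫`, `β_j = - q_j ⟪w, e⟫`; `‖y‖^(-3) = (‖y‖^2)^(-3/2)`; the formula holds in a
  neighbourhood of each `t ∈ S`, so the derivative is the Hessian; `line_count`.
-/

namespace PC992WC

open Polynomial Filter Topology N62f3cee0
open scoped ContDiff RealInnerProductSpace

variable {n : ℕ} (q : Fin n → ℝ) (a : Fin n → E)

lemma contDiffAt_potential {x : E} (hx : ∀ j, x ≠ a j) : ContDiffAt ℝ ∞ (potential q a) x := by
  unfold potential
  refine ContDiffAt.sum fun j _ => ?_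
  have h1 : ContDiffAt ℝ ∞ (fun y : E => ‖y - a j‖) x :=
    ContDiffAt.norm ℝ (contDiffAt_id.sub contDiffAt_const) (sub_ne_zero.mpr (hx j))
  have h2 := (contDiffAt_const (c := q j)).div h1 (norm_ne_zero_iff.mpr (sub_ne_zero.mpr (hx j)))
  have h3 : (fun y : E => q j / dist y (a j)) = (fun _ : E => q j) / fun y => ‖y - a j‖ := by
    funext y
    rw [Pi.div_apply, dist_eq_norm]
  rw [h3]
  exact h2

lemma hess_eq (V : E → ℝ) (x v w : E) : hess V x v w = fderiv ℝ (fderiv ℝ V) x v w := by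
  unfold hess
  rw [iteratedFDeriv_two_apply]
  simp

lemma hasFDerivAt_term (c : ℝ) (b : E) {x : E} (hx : x ≠ b) :
    HasFDerivAt (fun y : E => c / dist y b) (-(c / ‖x - b‖ ^ 3) • innerSL ℝ (x - b)) x := by
  have hne : x - b ≠ 0 := sub_ne_zero.mpr hx
  have hn : ‖x - b‖ ≠ 0 := norm_ne_zero_iff.mpr hne
  have h1 : HasFDerivAt (fun y : E => y - b) (ContinuousLinearMap.id ℝ E) x :=
    (hasFDerivAt_id x).sub_const b
  have h2 : HasFDerivAt (fun y : E => ‖y - b‖ ^ 2) ((2 : ℝ) • innerSL ℝ (x - b)) x := by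
    have := h1.norm_sq
    refine this.congr_fderiv ?_
    ext v
    simp
  have h3 : HasDerivAt (fun u : ℝ => c * u ^ (-(1 / 2) : ℝ))
      (c * (-(1 / 2) * (‖x - b‖ ^ 2) ^ (-(1 / 2) - 1 : ℝ))) (‖x - b‖ ^ 2) :=
    (Real.hasDerivAt_rpow_const (Or.inl (pow_ne_zero 2 hn))).const_mul c
  have h4 := h3.comp_hasFDerivAt x h2
  have e1 : (fun y : E => c / dist y b) = (fun u : ℝ => c * u ^ (-(1 / 2) : ℝ)) ∘
      (fun y : E => ‖y - b‖ ^ 2) := by
    funext y
    simp only [Function.comp_apply]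
    rw [dist_eq_norm, div_eq_mul_inv]
    congr 1
    rw [← Real.rpow_natCast, ← Real.rpow_mul (norm_nonneg _)]
    norm_num
    rw [Real.rpow_neg_one]
  rw [e1]
  refine h4.congr_fderiv ?_
  have e2 : (‖x - b‖ ^ 2) ^ (-(1 / 2) - 1 : ℝ) = (‖x - b‖ ^ 3)⁻¹ := by
    rw [← Real.rpow_natCast, ← Real.rpow_mul (norm_nonneg _), ← Real.rpow_natCast,
      ← Real.rpow_neg (norm_nonneg _)]
    congr 1
    norm_num
  rw [e2, smul_smul]
  congr 1
  rw [div_eq_mul_inv]
  ring

lemma fderiv_potential {x : E} (hx : ∀ j, x ≠ a j) (e : E) :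
    fderiv ℝ (potential q a) x e = ∑ j, -(q j * ⟪x - a j, e⟫ / ‖x - a j‖ ^ 3) := by
  have h : HasFDerivAt (potential q a)
      (∑ j, -(q j / ‖x - a j‖ ^ 3) • innerSL ℝ (x - a j)) x := by
    unfold potential
    exact HasFDerivAt.fun_sum fun j _ => hasFDerivAt_term (q j) (a j) (hx j)
  rw [h.fderiv, ContinuousLinearMap.sum_apply]
  apply Finset.sum_congr rfl
  intro j _
  simp only [ContinuousLinearMap.smul_apply, innerSL_apply_apply, smul_eq_mul]
  ring

lemma hasDerivAt_line (x w e : E) (t : ℝ) (hx : ∀ j, x + t • w ≠ a j) :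
    HasDerivAt (fun t : ℝ => fderiv ℝ (potential q a) (x + t • w) e)
      (hess (potential q a) (x + t • w) w e) t := by
  have h1 : HasFDerivAt (fderiv ℝ (potential q a)) (fderiv ℝ (fderiv ℝ (potential q a)) (x + t • w))
      (x + t • w) := by
    have h2 : ContDiffAt ℝ ∞ (fderiv ℝ (potential q a)) (x + t • w) :=
      (contDiffAt_potential q a hx).fderiv_right (by simp)
    exact (h2.differentiableAt (by simp)).hasFDerivAt
  have h3 : HasDerivAt (fun t : ℝ => x + t • w) w t := by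
    simpa using ((hasDerivAt_id t).smul_const w).const_add x
  have h4 := h1.comp_hasDerivAt t h3
  have h5 := h4.clm_apply (hasDerivAt_const t e)
  rw [hess_eq]
  simpa using h5

theorem ray_count (p : Fin n) (w e : E) (hw : w ≠ 0) (S : Finset ℝ)
    (hS : ∀ t ∈ S, (∀ j, a p + t • w ≠ a j) ∧ fderiv ℝ (potential q a) (a p + t • w) e = 0 ∧
      hess (potential q a) (a p + t • w) w e ≠ 0) :
    S.card ≤ 56 * n ^ 4 := by
  have hn : 0 < n := p.pos
  let P : Fin n → ℝ[X] := fun j =>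
    C (‖w‖ ^ 2) * X ^ 2 + C (2 * ⟪a p - a j, w⟫) * X + C (‖a p - a j‖ ^ 2)
  have hPe : ∀ j t, (P j).eval t = ‖a p + t • w - a j‖ ^ 2 := by
    intro j t
    have : a p + t • w - a j = (a p - a j) + t • w := by abel
    rw [this, norm_add_sq_real, inner_smul_right, norm_smul, mul_pow, Real.norm_eq_abs, sq_abs]
    simp only [P, eval_add, eval_mul, eval_C, eval_pow, eval_X]
    ring
  have hwn : ‖w‖ ≠ 0 := norm_ne_zero_iff.mpr hw
  have hPd : ∀ j, (P j).natDegree ≤ 2 := by
    intro j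
    simp only [P]
    exact natDegree_quadratic_le
  have hP0 : ∀ j, P j ≠ 0 := by
    intro j h0
    have h1 := congrArg (fun p : ℝ[X] => p.coeff 2) h0
    simp only [P, coeff_zero] at h1
    have h2 : (C (‖w‖ ^ 2) * X ^ 2 + C (2 * ⟪a p - a j, w⟫) * X + C (‖a p - a j‖ ^ 2)).coeff 2 =
        ‖w‖ ^ 2 := by
      rw [coeff_add, coeff_add, coeff_C_mul_X_pow, coeff_C_mul_X, coeff_C]
      simp
    rw [h2] at h1
    exact pow_ne_zero 2 hwn h1
  let α : Fin n → ℝ := fun j => -(q j * ⟪a p - a j, e⟫)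
  let β : Fin n → ℝ := fun j => -(q j * ⟪w, e⟫)
  have key : ∀ t, (∀ j, a p + t • w ≠ a j) → fderiv ℝ (potential q a) (a p + t • w) e =
      ∑ j, (α j + β j * t) * ((P j).eval t) ^ (-(3 / 2) : ℝ) := by
    intro t ht
    rw [fderiv_potential q a ht]
    apply Finset.sum_congr rfl
    intro j _
    have e1 : ((P j).eval t) ^ (-(3 / 2) : ℝ) = (‖a p + t • w - a j‖ ^ 3)⁻¹ := by
      rw [hPe, ← Real.rpow_natCast, ← Real.rpow_mul (norm_nonneg _), ← Real.rpow_natCast,
        ← Real.rpow_neg (norm_nonneg _)]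
      congr 1
      norm_num
    have e2 : ⟪a p + t • w - a j, e⟫ = ⟪a p - a j, e⟫ + t * ⟪w, e⟫ := by
      have : a p + t • w - a j = (a p - a j) + t • w := by abel
      rw [this, inner_add_left, inner_smul_left]
      simp
    rw [e1, e2]
    simp only [α, β]
    rw [div_eq_mul_inv]
    ring
  refine line_count n hn α β P hPd hP0 S fun t ht => ?_
  obtain ⟨h1, h2, h3⟩ := hS t ht
  refine ⟨?_, ?_, ?_⟩
  · intro j
    rw [hPe]
    have : a p + t • w - a j ≠ 0 := sub_ne_zero.mpr (h1 j)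
    positivity
  · rw [← key t h1]
    exact h2
  · have hev : ∀ᶠ x in 𝓝 t, ∀ j, a p + x • w ≠ a j := by
      rw [eventually_all]
      intro j
      have hc : ContinuousAt (fun x : ℝ => a p + x • w) t := by fun_prop
      exact hc.eventually_ne (h1 j)
    have hev2 : (fun t => ∑ j, (α j + β j * t) * ((P j).eval t) ^ (-(3 / 2) : ℝ)) =ᶠ[𝓝 t]
        fun t => fderiv ℝ (potential q a) (a p + t • w) e := by
      filter_upwards [hev] with x hx
      exact (key x hx).symm
    rw [hev2.deriv_eq, (hasDerivAt_line q a (a p) w e t h1).deriv]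
    exact h3

end PC992WC
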