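import Mathlib
import Pool.Agent.Work.MP_992d6e_an.WC.Pot

/-!
MODULE Exh (M). An equilibrium (or any point off the charges) has a finite condition number if and
only if it is nondegenerate.

(←) `n > 0`. `H = fderiv (fderiv V) x : E →L E →L ℝ` is injective (nondegeneracy), so by compactness of the unit
sphere (or ContinuousLinearMap/LinearMap antilipschitz in finite dimension:
`LinearMap.exists_antilipschitzWith`) there is `σ > 0` with `2 σ ‖v‖ ≤ ‖H v‖` for all `v`; for each `v`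
there is `w` in the unit ball with `|H v w| ≥ σ ‖v‖` (operator norm of `H v`: if `|H v w| < σ ‖v‖` for all `w` in the
unit ball then `‖H v‖ ≤ σ ‖v‖`, ContinuousLinearMap.opNorm_le_of_unit_norm or similar).
`κ = max 1 (‖H‖/σ)`. Continuity of `y ↦ fderiv (fderiv V) y` at `x` (V is C^∞ near x) gives `r > 0` with
`‖H_y - H_x‖ ≤ σ/4` for `dist y x < r`; `ρ = min (1/2) (r / (2 (1 + dist x (a j0))))` for some index `j0`.
`M = κ/ρ`.
(→) first clause with `v ≠ 0`.
-/

namespace PC992WC

open N62f3cee0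
open scoped ContDiff

variable {n : ℕ} (q : Fin n → ℝ) (a : Fin n → E)

lemma cont_norm {F : Type*} [NormedAddCommGroup F] {G : E → F} {x : E} (hG : ContinuousAt G x)
    {ε : ℝ} (hε : 0 < ε) : ∃ δ > 0, ∀ y, dist y x < δ → ‖G y - G x‖ < ε := by
  obtain ⟨δ, hδ, h⟩ := Metric.continuousAt_iff.mp hG ε hε
  exact ⟨δ, hδ, fun y hy => by rw [← dist_eq_norm]; exact h hy⟩

theorem exists_condLE (hn : 0 < n) {x : E} (hx : ∀ j, x ≠ a j) :
    (∃ M : ℝ, CondLE q a M x) ↔ HasNondegenerateHessianAt (potential q a) x := by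
  constructor
  · rintro ⟨M, σ, κ, ρ, hσ, -, -, -, -, h1, -, -⟩ v hv
    obtain ⟨w, _, hw⟩ := h1 v
    refine ⟨w, fun h0 => ?_⟩
    have h0' : hess (potential q a) x v w = 0 := h0
    rw [h0', abs_zero] at hw
    have : 0 < σ * ‖v‖ := mul_pos hσ (norm_pos_iff.mpr hv)
    linarith
  · intro h
    set V := potential q a with hV
    set H : E →L[ℝ] (E →L[ℝ] ℝ) := fderiv ℝ (fderiv ℝ V) x with hH
    have hinj : LinearMap.ker (H : E →ₗ[ℝ] (E →L[ℝ] ℝ)) = ⊥ := by
      rw [LinearMap.ker_eq_bot']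
      intro v hv
      by_contra hne
      obtain ⟨w, hw⟩ := h v hne
      apply hw
      have e : hess V x v w = 0 := by
        rw [hess_eq]
        have hv' : H v = 0 := hv
        rw [← hH, hv']
        rfl
      exact e
    obtain ⟨K, hK, hKH⟩ := LinearMap.exists_antilipschitzWith (H : E →ₗ[ℝ] (E →L[ℝ] ℝ)) hinj
    have hK' : (0 : ℝ) < K := by exact_mod_cast hK
    have hlow : ∀ v : E, ‖v‖ ≤ K * ‖H v‖ := by
      intro v
      have := hKH.le_mul_dist v 0
      simpa using this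
    set σ : ℝ := 1 / (2 * K) with hσdef
    have hσ : 0 < σ := by positivity
    have hlow2 : ∀ v : E, 2 * (σ * ‖v‖) ≤ ‖H v‖ := by
      intro v
      have := hlow v
      rw [hσdef]
      have e : 2 * (1 / (2 * (K : ℝ)) * ‖v‖) = ‖v‖ / K := by
        field_simp
      rw [e, div_le_iff₀ hK']
      linarith
    have hcont : ContinuousAt (fun y => fderiv ℝ (fderiv ℝ V) y) x := by
      have h1 : ContDiffAt ℝ ∞ (fderiv ℝ V) x :=
        (contDiffAt_potential q a hx).fderiv_right (by simp)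
      have h2 : ContDiffAt ℝ ∞ (fderiv ℝ (fderiv ℝ V)) x := h1.fderiv_right (by simp)
      exact h2.continuousAt
    have hσ4 : 0 < σ / 4 := by positivity
    obtain ⟨δ, hδ, hδ2⟩ := cont_norm (F := E →L[ℝ] (E →L[ℝ] ℝ)) hcont hσ4
    let j0 : Fin n := ⟨0, hn⟩
    set D := dist x (a j0) with hD
    have hD0 : 0 ≤ D := dist_nonneg
    set κ : ℝ := max 1 (‖H‖ / σ) with hκdef
    set ρ : ℝ := min (1 / 2) (δ / (2 * (1 + D))) with hρdef
    have hρ : 0 < ρ := lt_min (by norm_num) (by positivity)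
    have hρ1 : ρ < 1 := (min_le_left _ _).trans_lt (by norm_num)
    refine ⟨κ / ρ, σ, κ, ρ, hσ, le_max_left _ _, hρ, hρ1, ?_, ?_, ?_, ?_⟩
    · rw [div_mul_cancel₀ _ hρ.ne']
    · intro v
      rcases eq_or_ne v 0 with rfl | hv
      · refine ⟨0, by simp, ?_⟩
        rw [norm_zero, mul_zero]
        exact abs_nonneg _
      · have hlt : σ * ‖v‖ < ‖H v‖ := by
          have := hlow2 v
          have h3 : 0 < σ * ‖v‖ := mul_pos hσ (norm_pos_iff.mpr hv)
          linarith
        obtain ⟨w, hw1, hw2⟩ := ContinuousLinearMap.exists_lt_apply_of_lt_opNorm (H v) hlt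
        refine ⟨w, hw1.le, ?_⟩
        rw [hess_eq, ← Real.norm_eq_abs]
        exact hw2.le
    · intro v w
      rw [hess_eq, ← Real.norm_eq_abs]
      calc ‖fderiv ℝ (fderiv ℝ V) x v w‖ ≤ ‖H‖ * ‖v‖ * ‖w‖ := H.le_opNorm₂ v w
        _ ≤ κ * σ * ‖v‖ * ‖w‖ := by
          have : ‖H‖ ≤ κ * σ := by
            rw [← div_le_iff₀ hσ]
            exact le_max_right _ _
          gcongr
    · intro y hy v w
      have hy0 := hy j0
      have hyd : dist y x < δ := by
        calc dist y x ≤ ρ * D := hy0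
          _ ≤ δ / (2 * (1 + D)) * D := mul_le_mul_of_nonneg_right (min_le_right _ _) hD0
          _ = δ * (D / (2 * (1 + D))) := by ring
          _ < δ * 1 := by
            apply mul_lt_mul_of_pos_left _ hδ
            rw [div_lt_one (by positivity)]
            linarith
          _ = δ := mul_one δ
      have h1 := (hδ2 y hyd).le
      rw [hess_eq, hess_eq, ← Real.norm_eq_abs]
      calc ‖fderiv ℝ (fderiv ℝ V) y v w - fderiv ℝ (fderiv ℝ V) x v w‖ =
            ‖(fderiv ℝ (fderiv ℝ V) y - fderiv ℝ (fderiv ℝ V) x) v w‖ := by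
              simp
        _ ≤ ‖fderiv ℝ (fderiv ℝ V) y - fderiv ℝ (fderiv ℝ V) x‖ * ‖v‖ * ‖w‖ :=
              ContinuousLinearMap.le_opNorm₂ _ v w
        _ ≤ σ / 4 * ‖v‖ * ‖w‖ := by gcongr

end PC992WC
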