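import Mathlib
import Pool.Agent.Work.MP_992d6e_an.WC.Defs

/-!
MODULE Grd (S-M). The grid of directions (Mathlib only).

`W` = image of `Fin 3 × Bool × Icc (-N) N × Icc (-N) N` (integers) under
`(m, b, i, j) ↦` the vector with coordinate `m` equal to `±1`, coordinate `m+1` equal to `i/N`,
coordinate `m+2` equal to `j/N`. For `u ≠ 0` let `m` maximise `|u m|`, `s = |u m| > 0`; round the other
`u l / s ∈ [-1,1]` to the nearest multiple of `1/N` (abs_sub_round): the error in each
coordinate is at most `1/(2N)`, so `‖s w - u‖ ≤ s √2 / (2N) ≤ s / N` (EuclideanSpace.norm_eq or norm_sq_eq,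
Fin.sum_univ_three).
-/

namespace PC992WC

/-- the grid vector with coordinate `m` equal to `±1` and the others `i/N`, `j/N` -/
noncomputable def gvec (N : ℕ) (x : Fin 3 × Bool × ℤ × ℤ) : E :=
  WithLp.toLp 2 (fun l : Fin 3 => if l = x.1 then (if x.2.1 then (1 : ℝ) else -1)
    else if l = x.1 + 1 then (x.2.2.1 : ℝ) / N else (x.2.2.2 : ℝ) / N)

lemma gvec_apply (N : ℕ) (x : Fin 3 × Bool × ℤ × ℤ) (l : Fin 3) :
    gvec N x l = if l = x.1 then (if x.2.1 then (1 : ℝ) else -1)
    else if l = x.1 + 1 then (x.2.2.1 : ℝ) / N else (x.2.2.2 : ℝ) / N := rfl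

lemma norm_sq_le_of_coord {v : E} {c : ℝ} (h : ∀ l, |v l| ≤ c) : ‖v‖ ^ 2 ≤ 3 * c ^ 2 := by
  rw [EuclideanSpace.norm_sq_eq, Fin.sum_univ_three]
  have h' : ∀ l, ‖v l‖ ^ 2 ≤ c ^ 2 := by
    intro l
    rw [Real.norm_eq_abs]
    exact pow_le_pow_left₀ (abs_nonneg _) (h l) 2
  linarith [h' 0, h' 1, h' 2]

lemma grid_ratio {N : ℕ} (hN : 0 < N) {i : ℤ} (hi : i ∈ Finset.Icc (-(N : ℤ)) N) :
    |(i : ℝ) / N| ≤ 1 := by
  rw [Finset.mem_Icc] at hi
  have hN' : (0 : ℝ) < N := by exact_mod_cast hN
  rw [abs_div, abs_of_pos hN', div_le_one hN', abs_le]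
  constructor
  · exact_mod_cast hi.1
  · exact_mod_cast hi.2

theorem grid (N : ℕ) (hN : 0 < N) :
    ∃ W : Finset E, W.card ≤ 6 * (2 * N + 1) ^ 2 ∧ (∀ w ∈ W, 1 ≤ ‖w‖ ∧ ‖w‖ ^ 2 ≤ 3) ∧
      ∀ u : E, u ≠ 0 → ∃ w ∈ W, ∃ s : ℝ, 0 < s ∧ s ≤ ‖u‖ ∧ ‖u‖ ^ 2 ≤ 3 * s ^ 2 ∧
        ‖s • w - u‖ ≤ s / N := by
  classical
  have hN' : (0 : ℝ) < N := by exact_mod_cast hN
  let I : Finset ℤ := Finset.Icc (-(N : ℤ)) N
  let D : Finset (Fin 3 × Bool × ℤ × ℤ) := Finset.univ ×ˢ (Finset.univ ×ˢ (I ×ˢ I))
  refine ⟨D.image (gvec N), ?_, ?_, ?_⟩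
  · refine Finset.card_image_le.trans ?_
    simp only [D, I, Finset.card_product, Finset.card_univ, Fintype.card_fin, Fintype.card_bool,
      Int.card_Icc]
    have : ((N : ℤ) + 1 - -(N : ℤ)).toNat = 2 * N + 1 := by omega
    rw [this]
    exact le_of_eq (by ring)
  · intro w hw
    rw [Finset.mem_image] at hw
    obtain ⟨x, hx, rfl⟩ := hw
    simp only [D, Finset.mem_product, Finset.mem_univ, true_and] at hx
    have hc : ∀ l, |gvec N x l| ≤ 1 := by
      intro l
      rw [gvec_apply]
      split_ifs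
      · simp
      · simp
      · exact grid_ratio hN hx.1
      · exact grid_ratio hN hx.2
    constructor
    · have h1 : ‖gvec N x x.1‖ ≤ ‖gvec N x‖ := PiLp.norm_apply_le _ _
      have h2 : ‖gvec N x x.1‖ = 1 := by
        rw [gvec_apply, if_pos rfl]
        split_ifs <;> simp
      rwa [h2] at h1
    · have := norm_sq_le_of_coord hc
      linarith
  · intro u hu
    obtain ⟨m, hm⟩ := Finite.exists_max (fun l : Fin 3 => |u l|)
    have hs : 0 < |u m| := by
      by_contra hcon
      have h0 : |u m| = 0 := le_antisymm (not_lt.mp hcon) (abs_nonneg _)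
      apply hu
      ext l
      have := hm l
      rw [h0] at this
      simpa using this
    set s := |u m| with hsdef
    have hround : ∀ x : ℝ, |x| ≤ N → round x ∈ I := by
      intro x hx
      rw [abs_le] at hx
      rw [Finset.mem_Icc]
      have h1 := abs_sub_round x
      rw [abs_le] at h1
      constructor
      · by_contra hcon
        push Not at hcon
        have : round x + 1 ≤ -(N : ℤ) := hcon
        have h2 : ((round x : ℤ) : ℝ) + 1 ≤ -(N : ℝ) := by exact_mod_cast this
        linarith [h1.2, hx.1]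
      · by_contra hcon
        push Not at hcon
        have : (N : ℤ) + 1 ≤ round x := hcon
        have h2 : (N : ℝ) + 1 ≤ ((round x : ℤ) : ℝ) := by exact_mod_cast this
        linarith [h1.1, hx.2]
    have hratio : ∀ l, |N * (u l / s)| ≤ N := by
      intro l
      rw [abs_mul, abs_of_pos hN', abs_div, abs_of_pos hs]
      have : |u l| / s ≤ 1 := (div_le_one hs).mpr (hm l)
      nlinarith
    refine ⟨gvec N (m, decide (0 ≤ u m), round (N * (u (m + 1) / s)),
      round (N * (u (m + 2) / s))), ?_, s, hs, ?_, ?_, ?_⟩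
    · apply Finset.mem_image_of_mem
      simp only [D, Finset.mem_product, Finset.mem_univ, true_and]
      exact ⟨hround _ (hratio _), hround _ (hratio _)⟩
    · have := PiLp.norm_apply_le u m
      rwa [Real.norm_eq_abs] at this
    · exact norm_sq_le_of_coord hm
    · have key : ∀ x : ℝ, |s * ((round (N * (x / s)) : ℤ) : ℝ) / N - x| ≤ s / (2 * N) := by
        intro x
        have h1 := abs_sub_round (N * (x / s))
        have e : s * ((round (N * (x / s)) : ℤ) : ℝ) / N - x =
            -(s / N) * (N * (x / s) - ((round (N * (x / s)) : ℤ) : ℝ)) := by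
          field_simp
          ring
        rw [e, abs_mul, abs_neg, abs_of_pos (div_pos hs hN')]
        calc s / N * |N * (x / s) - ((round (N * (x / s)) : ℤ) : ℝ)| ≤ s / N * (1 / 2) :=
              mul_le_mul_of_nonneg_left h1 (div_pos hs hN').le
          _ = s / (2 * N) := by ring
      have hcoord : ∀ l, |(s • gvec N (m, decide (0 ≤ u m), round (N * (u (m + 1) / s)),
          round (N * (u (m + 2) / s))) - u) l| ≤ s / (2 * N) := by
        intro l
        rw [PiLp.sub_apply, PiLp.smul_apply, smul_eq_mul, gvec_apply]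
        simp only [decide_eq_true_eq]
        by_cases hlm : l = m
        · rw [if_pos hlm, hlm]
          have : s * (if 0 ≤ u m then (1 : ℝ) else -1) - u m = 0 := by
            split_ifs with h0
            · rw [hsdef, abs_of_nonneg h0]
              ring
            · rw [hsdef, abs_of_neg (not_le.mp h0)]
              ring
          rw [this, abs_zero]
          positivity
        · rw [if_neg hlm]
          by_cases hl1 : l = m + 1
          · rw [if_pos hl1, hl1, ← mul_div_assoc]
            exact key _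
          · rw [if_neg hl1]
            have hl2 : l = m + 2 := by
              fin_cases l <;> fin_cases m <;> simp_all
            rw [hl2, ← mul_div_assoc]
            exact key _
      have h1 := norm_sq_le_of_coord hcoord
      have h2 : 3 * (s / (2 * N)) ^ 2 ≤ (s / N) ^ 2 := by
        have : (s / (2 * N)) = (s / N) / 2 := by ring
        rw [this]
        nlinarith [sq_nonneg (s / N)]
      exact le_of_sq_le_sq (h1.trans h2) (by positivity)

end PC992WC
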