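import Mathlib
import Pool.Agent.Work.MP_992d6e_an.WC.Defs

/-!
MODULE Zer (S). A zero near an approximate zero (Mathlib only).

WLOG `lam > 0` (replace `f` by `-f`). Then `f' t ≥ lam - (lam - m) = m` on the interval, so
`f (s + τ) ≥ f s + m τ ≥ 0` and `f (s - τ) ≤ f s - m τ ≤ 0`; intermediate value theorem.
-/

namespace PC992WC

lemma zero_near_pos (f f' : ℝ → ℝ) (s τ m : ℝ) (hτ : 0 < τ) (hm : 0 < m)
    (hf : ∀ t ∈ Set.Icc (s - τ) (s + τ), HasDerivAt f (f' t) t ∧ m ≤ f' t)
    (h0 : |f s| ≤ m * τ) :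
    ∃ t ∈ Set.Icc (s - τ) (s + τ), f t = 0 ∧ f' t ≠ 0 := by
  have hcont : ContinuousOn f (Set.Icc (s - τ) (s + τ)) :=
    fun t ht => (hf t ht).1.continuousAt.continuousWithinAt
  have hle := abs_le.mp h0
  have h1 : 0 ≤ f (s + τ) := by
    obtain ⟨c, hc, e⟩ := exists_hasDerivAt_eq_slope f f' (show s < s + τ by linarith)
      (hcont.mono (Set.Icc_subset_Icc (by linarith) le_rfl))
      (fun x hx => (hf x ⟨by linarith [hx.1], hx.2.le⟩).1)
    have := (hf c ⟨by linarith [hc.1], hc.2.le⟩).2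
    rw [e, add_sub_cancel_left, le_div_iff₀ hτ] at this
    linarith
  have h2 : f (s - τ) ≤ 0 := by
    obtain ⟨c, hc, e⟩ := exists_hasDerivAt_eq_slope f f' (show s - τ < s by linarith)
      (hcont.mono (Set.Icc_subset_Icc le_rfl (by linarith)))
      (fun x hx => (hf x ⟨hx.1.le, by linarith [hx.2]⟩).1)
    have := (hf c ⟨hc.1.le, by linarith [hc.2]⟩).2
    rw [e, sub_sub_cancel, le_div_iff₀ hτ] at this
    linarith
  obtain ⟨t, ht, e⟩ := intermediate_value_Icc (by linarith) hcont ⟨h2, h1⟩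
  exact ⟨t, ht, e, (hm.trans_le (hf t ht).2).ne'⟩

theorem zero_near (f f' : ℝ → ℝ) (s τ m lam : ℝ) (hτ : 0 < τ) (hm : 0 < m)
    (hf : ∀ t ∈ Set.Icc (s - τ) (s + τ), HasDerivAt f (f' t) t ∧ |f' t - lam| ≤ |lam| - m)
    (h0 : |f s| ≤ m * τ) :
    ∃ t ∈ Set.Icc (s - τ) (s + τ), f t = 0 ∧ f' t ≠ 0 := by
  rcases le_or_gt 0 lam with hl | hl
  · refine zero_near_pos f f' s τ m hτ hm (fun t ht => ⟨(hf t ht).1, ?_⟩) h0
    have := (hf t ht).2
    rw [abs_of_nonneg hl] at this
    have := (abs_le.mp this).1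
    linarith
  · obtain ⟨t, ht, e1, e2⟩ := zero_near_pos (fun t => -f t) (fun t => -f' t) s τ m hτ hm
      (fun t ht => ⟨(hf t ht).1.neg, by
        have := (hf t ht).2
        rw [abs_of_neg hl] at this
        have := (abs_le.mp this).2
        linarith⟩) (by simpa using h0)
    exact ⟨t, ht, by simpa using e1, by simpa using e2⟩

/-- a linear functional on three-space with a large value on the unit ball has a large value on
one of the coordinate vectors -/
theorem exists_coord (L : E →L[ℝ] ℝ) (w : E) (hw : ‖w‖ ≤ 1) :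
    ∃ k : Fin 3, |L w| ≤ 3 * |L (EuclideanSpace.single k (1 : ℝ))| := by
  obtain ⟨k, hk⟩ := Finite.exists_max (fun k : Fin 3 => |L (EuclideanSpace.single k (1 : ℝ))|)
  refine ⟨k, ?_⟩
  have e : w = ∑ i : Fin 3, w i • EuclideanSpace.single i (1 : ℝ) := by
    ext l
    simp [Finset.sum_apply, Pi.single_apply]
  have hc : ∀ i, |w i| ≤ 1 := by
    intro i
    have := EuclideanSpace.norm_eq w
    have h2 : ‖w i‖ ≤ ‖w‖ := PiLp.norm_apply_le w i
    rw [Real.norm_eq_abs] at h2
    linarith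
  calc |L w| = |∑ i : Fin 3, w i * L (EuclideanSpace.single i (1 : ℝ))| := by
        conv_lhs => rw [e]
        rw [map_sum]
        simp only [map_smul, smul_eq_mul]
    _ ≤ ∑ i : Fin 3, |w i * L (EuclideanSpace.single i (1 : ℝ))| := Finset.abs_sum_le_sum_abs _ _
    _ ≤ ∑ _i : Fin 3, |L (EuclideanSpace.single k (1 : ℝ))| := by
        apply Finset.sum_le_sum
        intro i _
        rw [abs_mul]
        calc |w i| * |L (EuclideanSpace.single i (1 : ℝ))| ≤
            1 * |L (EuclideanSpace.single i (1 : ℝ))| :=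
              mul_le_mul_of_nonneg_right (hc i) (abs_nonneg _)
          _ ≤ _ := by rw [one_mul]; exact hk i
    _ = 3 * |L (EuclideanSpace.single k (1 : ℝ))| := by
        simp [Finset.sum_const]

end PC992WC
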