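import Mathlib
import Pool.Agent.Work.MP_992d6e_an.WC.Pot
import Pool.Agent.Work.MP_992d6e_an.WC.Zer

/-!
MODULE Sep (M). One well-conditioned equilibrium.

Let `x` be off the charges with `DV(x) = 0`, `σ, κ, ρ` as in CondLE and `d = dist x (a p)` the distance to
the nearest charge. A point `y` with `dist y x ≤ ρ d` is no charge (`ρ < 1`), and satisfies the
hypothesis of the third clause of CondLE.

separation: suppose `dist x' x ≤ ρ d`, put `v = x' - x`. Take `w0` from the first clause. `φ(s) = DV(x + s v) w0` has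
`φ(0) = φ(1) = 0` and `φ'(s) = H_(x + s v)(v, w0)` (hasDerivAt_line) so by Rolle `H_(x+sv)(v,w0) = 0` for some `s` in
`(0,1)`, but this differs from `H_x(v,w0)`, `|H_x(v,w0)| ≥ σ‖v‖`, by at most `σ/4 ‖v‖`; so `v = 0`.

transversal: let `u = x - a p`, `w, s` with `0 < s ≤ ‖u‖`, `‖u‖^2 ≤ 3 s^2`, `‖s w - u‖ ≤ s/N`,
`1 ≤ ‖w‖`, `‖w‖^2 ≤ 3`, `N ≥ 100 κ/ρ`. The first clause with `v = u` and exists_coord give `k` with
`|H_x(u, e_k)| ≥ σ ‖u‖ / 3`. Put `f(t) = DV(a p + t w) e_k`, `τ = ρ s / 5`, `lam = H_x(w, e_k)`, `m = 7/100 σ`.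
For `|t - s| ≤ τ`: `‖a p + t w - x‖ ≤ |t - s| ‖w‖ + ‖s w - u‖ ≤ √3 ρ s/5 + ρ s/100 ≤ 2/5 ρ s ≤ 2/5 ρ d`.
`|lam| ≥ |H_x(u,e_k)|/s - κ σ/N ≥ σ ‖u‖/(3 s) - κσ/N` and `|f'(t) - lam| ≤ σ/4 ‖w‖ ≤ σ/4 (‖u‖/s + 1/N)`, so
`|lam| - |f'(t) - lam| ≥ σ ‖u‖/(12 s) - (κ + 1/4) σ/N ≥ σ (1/12 - 1/80) ≥ m` (`‖u‖ ≥ s`, `κ/N ≤ ρ/100 ≤ 1/100`).
`|f(s)| ≤ (κσ + σ/4) ‖s w - u‖ ≤ 5/4 κ σ s/N ≤ σ ρ s/80 ≤ m τ = 7/500 σ ρ s` (mean value inequality on the
segment from `x` to `a p + s w`, with hasDerivAt_line). So zero_near applies.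
-/

namespace PC992WC

open N62f3cee0

variable {n : ℕ} (q : Fin n → ℝ) (a : Fin n → E)

private lemma sep_dist {x y : E} {ρ : ℝ} (p : Fin n)
    (hp : ∀ j, dist x (a p) ≤ dist x (a j)) (hρ : 0 < ρ)
    (hd : dist y x ≤ ρ * dist x (a p)) (j : Fin n) : dist y x ≤ ρ * dist x (a j) :=
  hd.trans (mul_le_mul_of_nonneg_left (hp j) hρ.le)

private lemma sep_ne {x y : E} {ρ : ℝ} (p : Fin n)
    (hp : ∀ j, dist x (a p) ≤ dist x (a j)) (hx : ∀ j, x ≠ a j) (hρ : 0 < ρ) (hρ1 : ρ < 1)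
    (hd : dist y x ≤ ρ * dist x (a p)) (j : Fin n) : y ≠ a j := by
  intro h
  have h1 := sep_dist a p hp hρ hd j
  rw [h, dist_comm] at h1
  have h2 : 0 < dist x (a j) := dist_pos.2 (hx j)
  nlinarith

private lemma sep_smul (V : E → ℝ) (x v w : E) (c : ℝ) : hess V x (c • v) w = c * hess V x v w := by
  rw [hess_eq, hess_eq, map_smul, ContinuousLinearMap.smul_apply, smul_eq_mul]

private lemma sep_add (V : E → ℝ) (x v v' w : E) :
    hess V x (v + v') w = hess V x v w + hess V x v' w := by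
  rw [hess_eq, hess_eq, hess_eq, map_add, ContinuousLinearMap.add_apply]

theorem separation {x x' : E} {σ ρ : ℝ} (p : Fin n) (hp : ∀ j, dist x (a p) ≤ dist x (a j))
    (hx : ∀ j, x ≠ a j) (hσ : 0 < σ) (hρ : 0 < ρ) (hρ1 : ρ < 1)
    (h1 : ∀ v : E, ∃ w : E, ‖w‖ ≤ 1 ∧ σ * ‖v‖ ≤ |hess (potential q a) x v w|)
    (h3 : ∀ y : E, (∀ j, dist y x ≤ ρ * dist x (a j)) → ∀ v w : E,
      |hess (potential q a) y v w - hess (potential q a) x v w| ≤ σ / 4 * ‖v‖ * ‖w‖)
    (hx0 : fderiv ℝ (potential q a) x = 0) (hx0' : fderiv ℝ (potential q a) x' = 0)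
    (hd : dist x' x ≤ ρ * dist x (a p)) : x' = x := by
  by_contra hne
  have hv0 : 0 < ‖x' - x‖ := norm_pos_iff.2 (sub_ne_zero.2 hne)
  obtain ⟨w0, hw0, hw1⟩ := h1 (x' - x)
  have hdist : ∀ s ∈ Set.Icc (0 : ℝ) 1, dist (x + s • (x' - x)) x ≤ ρ * dist x (a p) := by
    intro s hs
    rw [dist_eq_norm, add_sub_cancel_left, norm_smul, Real.norm_eq_abs, abs_of_nonneg hs.1]
    rw [dist_eq_norm] at hd
    calc s * ‖x' - x‖ ≤ 1 * ‖x' - x‖ := mul_le_mul_of_nonneg_right hs.2 (norm_nonneg _)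
      _ ≤ ρ * dist x (a p) := by rw [one_mul]; exact hd
  have hder : ∀ s ∈ Set.Icc (0 : ℝ) 1,
      HasDerivAt (fun s : ℝ => fderiv ℝ (potential q a) (x + s • (x' - x)) w0)
        (hess (potential q a) (x + s • (x' - x)) (x' - x) w0) s := fun s hs =>
    hasDerivAt_line q a x (x' - x) w0 s fun j => sep_ne a p hp hx hρ hρ1 (hdist s hs) j
  obtain ⟨c, hc, hc0⟩ := exists_hasDerivAt_eq_zero (a := (0 : ℝ)) (b := 1) zero_lt_one
    (f := fun s : ℝ => fderiv ℝ (potential q a) (x + s • (x' - x)) w0)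
    (f' := fun s : ℝ => hess (potential q a) (x + s • (x' - x)) (x' - x) w0)
    (fun s hs => (hder s hs).continuousAt.continuousWithinAt)
    (by
      show fderiv ℝ (potential q a) (x + (0 : ℝ) • (x' - x)) w0 =
        fderiv ℝ (potential q a) (x + (1 : ℝ) • (x' - x)) w0
      rw [zero_smul, add_zero, one_smul, add_sub_cancel, hx0, hx0'])
    (fun s hs => hder s ⟨hs.1.le, hs.2.le⟩)
  have h4 := h3 (x + c • (x' - x))
    (fun j => sep_dist a p hp hρ (hdist c ⟨hc.1.le, hc.2.le⟩) j) (x' - x) w0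
  have hc1 : hess (potential q a) (x + c • (x' - x)) (x' - x) w0 = 0 := hc0
  rw [hc1, zero_sub, abs_neg] at h4
  have h5 : σ / 4 * ‖x' - x‖ * ‖w0‖ ≤ σ / 4 * ‖x' - x‖ * 1 :=
    mul_le_mul_of_nonneg_left hw0 (by positivity)
  have h6 : 0 < σ * ‖x' - x‖ := by positivity
  linarith

theorem transversal {x : E} {σ κ ρ : ℝ} (p : Fin n) (hp : ∀ j, dist x (a p) ≤ dist x (a j))
    (hx : ∀ j, x ≠ a j) (hσ : 0 < σ) (hκ : 1 ≤ κ) (hρ : 0 < ρ) (hρ1 : ρ < 1)
    (h1 : ∀ v : E, ∃ w : E, ‖w‖ ≤ 1 ∧ σ * ‖v‖ ≤ |hess (potential q a) x v w|)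
    (h2 : ∀ v w : E, |hess (potential q a) x v w| ≤ κ * σ * ‖v‖ * ‖w‖)
    (h3 : ∀ y : E, (∀ j, dist y x ≤ ρ * dist x (a j)) → ∀ v w : E,
      |hess (potential q a) y v w - hess (potential q a) x v w| ≤ σ / 4 * ‖v‖ * ‖w‖)
    (hx0 : fderiv ℝ (potential q a) x = 0)
    (N : ℝ) (hN : 100 * κ ≤ N * ρ) (w : E) (hw1 : 1 ≤ ‖w‖) (hw : ‖w‖ ^ 2 ≤ 3) (s : ℝ)
    (hs : 0 < s) (hsu : s ≤ ‖x - a p‖) (hus : ‖x - a p‖ ^ 2 ≤ 3 * s ^ 2)
    (hsw : ‖s • w - (x - a p)‖ ≤ s / N) :
    ∃ (k : Fin 3) (t : ℝ), (∀ j, a p + t • w ≠ a j) ∧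
      fderiv ℝ (potential q a) (a p + t • w) (EuclideanSpace.single k (1 : ℝ)) = 0 ∧
      hess (potential q a) (a p + t • w) w (EuclideanSpace.single k (1 : ℝ)) ≠ 0 ∧
      dist (a p + t • w) x ≤ 2 / 5 * ρ * dist x (a p) := by
  have hN0 : 0 < N := by
    by_contra h
    rw [not_lt] at h
    have h4 : N * ρ ≤ 0 := mul_nonpos_of_nonpos_of_nonneg h hρ.le
    linarith
  -- `1 / N ≤ ρ / (100 κ)`
  have hNκ : κ / N ≤ ρ / 100 := by
    rw [div_le_div_iff₀ hN0 (by norm_num)]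
    linarith
  have hN1 : 1 / N ≤ κ / N := by gcongr
  have hN2 : 1 / N ≤ ρ / 100 := hN1.trans hNκ
  set u := x - a p with hu
  have hd : dist x (a p) = ‖u‖ := dist_eq_norm _ _
  have hu0 : 0 < ‖u‖ := hs.trans_le hsu
  set z := s • w - u with hz
  have hzN : ‖z‖ ≤ s * (ρ / 100) := by
    refine hsw.trans ?_
    rw [div_eq_mul_one_div]
    gcongr
  have hwn : ‖w‖ ≤ 7 / 4 := by nlinarith [norm_nonneg w]
  obtain ⟨w1, hw1n, hw1'⟩ := h1 u
  obtain ⟨k, hk⟩ := exists_coord (fderiv ℝ (fderiv ℝ (potential q a)) x u) w1 hw1n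
  rw [← hess_eq, ← hess_eq] at hk
  set e : E := EuclideanSpace.single k (1 : ℝ) with he
  have hen : ‖e‖ = 1 := by rw [he]; simp
  set lam := hess (potential q a) x w e with hlam
  -- the distance
  have hdist : ∀ t ∈ Set.Icc (s - ρ * s / 5) (s + ρ * s / 5),
      dist (a p + t • w) x ≤ 2 / 5 * ρ * dist x (a p) := by
    intro t ht
    have e1 : a p + t • w - x = (t - s) • w + z := by
      rw [hz, hu, sub_smul]
      abel
    rw [dist_eq_norm, e1, hd]
    have h4 : |t - s| ≤ ρ * s / 5 := by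
      rw [abs_le]
      constructor <;> linarith [ht.1, ht.2]
    have h5 : ‖(t - s) • w‖ ≤ ρ * s / 5 * (7 / 4) := by
      rw [norm_smul, Real.norm_eq_abs]
      gcongr
    have h6 : ρ * s ≤ ρ * ‖u‖ := by gcongr
    have h7 := norm_add_le ((t - s) • w) z
    have h8 : 0 < ρ * s := by positivity
    nlinarith
  have hle : ∀ y, dist y x ≤ 2 / 5 * ρ * dist x (a p) → dist y x ≤ ρ * dist x (a p) := by
    intro y hy
    have h4 : 0 ≤ ρ * dist x (a p) := by positivity
    linarith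
  -- lower bound for `lam`
  have hlow : σ * ‖u‖ / 3 - κ * σ * (s / N) ≤ s * |lam| := by
    have e1 : s * lam = hess (potential q a) x u e + hess (potential q a) x z e := by
      rw [← sep_add, hlam, ← sep_smul, hz]
      congr 1
      abel
    have h4 : σ * ‖u‖ / 3 ≤ |hess (potential q a) x u e| := by linarith
    have h5 : |hess (potential q a) x z e| ≤ κ * σ * (s / N) := by
      refine (h2 z e).trans ?_
      rw [hen, mul_one]
      gcongr
    have h6 : |hess (potential q a) x u e| ≤ |s * lam| + |hess (potential q a) x z e| := by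
      have e2 : hess (potential q a) x u e = s * lam - hess (potential q a) x z e := by
        rw [e1]
        ring
      rw [e2]
      exact abs_sub _ _
    rw [abs_mul, abs_of_pos hs] at h6
    linarith
  have hzd : ∀ r ∈ Set.Icc (0 : ℝ) 1, dist (x + r • z) x ≤ ρ * dist x (a p) := by
    intro r hr
    rw [dist_eq_norm, add_sub_cancel_left, norm_smul, Real.norm_eq_abs, abs_of_nonneg hr.1, hd]
    have h4 : r * ‖z‖ ≤ 1 * ‖z‖ := mul_le_mul_of_nonneg_right hr.2 (norm_nonneg _)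
    have h5 : ρ * s ≤ ρ * ‖u‖ := by gcongr
    have h6 : 0 < ρ * s := by positivity
    nlinarith
  -- the value at `s`
  have hfs : |fderiv ℝ (potential q a) (a p + s • w) e| ≤ 7 / 100 * σ * (ρ * s / 5) := by
    have h4 := norm_image_sub_le_of_norm_deriv_le_segment_01'
      (f := fun r : ℝ => fderiv ℝ (potential q a) (x + r • z) e)
      (f' := fun r : ℝ => hess (potential q a) (x + r • z) z e)
      (C := 5 / 4 * (κ * σ * (s / N)))
      (fun r hr => (hasDerivAt_line q a x z e r fun j =>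
        sep_ne a p hp hx hρ hρ1 (hzd r hr) j).hasDerivWithinAt)
      (fun r hr => by
        have h5 := h3 (x + r • z) (fun j => sep_dist a p hp hρ (hzd r ⟨hr.1, hr.2.le⟩) j) z e
        have h6 := h2 z e
        rw [hen, mul_one] at h5 h6
        rw [Real.norm_eq_abs]
        have h7 : |hess (potential q a) (x + r • z) z e| ≤
            |hess (potential q a) (x + r • z) z e - hess (potential q a) x z e| +
              |hess (potential q a) x z e| := by
          have := abs_add_le (hess (potential q a) (x + r • z) z e - hess (potential q a) x z e)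
            (hess (potential q a) x z e)
          rwa [sub_add_cancel] at this
        have h8 : κ * σ * ‖z‖ ≤ κ * σ * (s / N) := by gcongr
        have h9 : σ / 4 * ‖z‖ ≤ κ * σ * (s / N) / 4 := by
          have h10 : σ / 4 * ‖z‖ ≤ σ / 4 * (s / N) := by gcongr
          have h11 : 1 * (σ * (s / N)) ≤ κ * (σ * (s / N)) :=
            mul_le_mul_of_nonneg_right hκ (by positivity)
          linarith
        linarith)
    have e1 : x + (1 : ℝ) • z = a p + s • w := by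
      rw [one_smul, hz, hu]
      abel
    have e2 : fderiv ℝ (potential q a) (x + (0 : ℝ) • z) e = 0 := by
      rw [zero_smul, add_zero, hx0]
      rfl
    simp only [e1, e2, sub_zero, Real.norm_eq_abs] at h4
    refine h4.trans ?_
    have h5 : κ * σ * (s / N) = σ * s * (κ / N) := by ring
    rw [h5]
    have h6 : σ * s * (κ / N) ≤ σ * s * (ρ / 100) := by gcongr
    have h7 : 0 < σ * s * ρ := by positivity
    nlinarith
  obtain ⟨t, ht, hft, hft'⟩ := zero_near
    (fun t : ℝ => fderiv ℝ (potential q a) (a p + t • w) e)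
    (fun t : ℝ => hess (potential q a) (a p + t • w) w e) s (ρ * s / 5) (7 / 100 * σ) lam
    (by positivity) (by positivity)
    (fun t ht => by
      have hyd := hle _ (hdist t ht)
      refine ⟨hasDerivAt_line q a (a p) w e t fun j => sep_ne a p hp hx hρ hρ1 hyd j, ?_⟩
      have h4 := h3 (a p + t • w) (fun j => sep_dist a p hp hρ hyd j) w e
      rw [hen, mul_one] at h4
      -- `s ‖w‖ ≤ ‖u‖ + s / N`
      have h5 : s * ‖w‖ ≤ ‖u‖ + s / N := by
        have e1 : s • w = u + z := by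
          rw [hz]
          abel
        have h6 : ‖s • w‖ ≤ ‖u‖ + ‖z‖ := by
          rw [e1]
          exact norm_add_le _ _
        rw [norm_smul, Real.norm_eq_abs, abs_of_pos hs] at h6
        linarith
      have h6 : σ / 4 * (s * ‖w‖) ≤ σ / 4 * (‖u‖ + s / N) := by gcongr
      have h7 : s * |hess (potential q a) (a p + t • w) w e - lam| ≤ s * (σ / 4 * ‖w‖) := by
        gcongr
      have h8 : κ * σ * (s / N) = σ * s * (κ / N) := by ring
      have h9 : σ * s * (κ / N) ≤ σ * s * (ρ / 100) := by gcongr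
      have h10 : σ / 4 * (s / N) = σ * s * (1 / N) / 4 := by ring
      have h11 : σ * s * (1 / N) ≤ σ * s * (ρ / 100) := by gcongr
      have h12 : σ * s * ρ ≤ σ * s * 1 := by gcongr
      have h13 : σ * s ≤ σ * ‖u‖ := by gcongr
      have h14 : s * |hess (potential q a) (a p + t • w) w e - lam| ≤
          s * (|lam| - 7 / 100 * σ) := by
        have h15 : s * (|lam| - 7 / 100 * σ) = s * |lam| - 7 / 100 * (σ * s) := by ring
        rw [h15]
        have h16 : s * (σ / 4 * ‖w‖) = σ / 4 * (s * ‖w‖) := by ring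
        rw [h16] at h7
        nlinarith
      exact le_of_mul_le_mul_left h14 hs)
    hfs
  exact ⟨k, t, fun j => sep_ne a p hp hx hρ hρ1 (hle _ (hdist t ht)) j, hft, hft', hdist t ht⟩

end PC992WC
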