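import Mathlib
import Pool.Agent.Work.MP_992d6e_an.WC.Sep
import Pool.Agent.Work.MP_992d6e_an.WC.Grd
import Pool.Agent.Work.MP_992d6e_an.WC.Exh

/-!
MODULE Fin (M). Assembly.

`gradient_zero`: `∇ V x = 0 ↔ fderiv V x = 0` (see Final.lean, gradient_eq_zero_iff).
card_bound: let `T` be a finite set of equilibria with CondLE q a M, `M ≥ 1`, `N = ⌈100 M⌉₊ ≤ 101 M`, `W` the grid.
For `x ∈ T` choose a nearest charge `p`, then `w, s` from `grid` with `u = x - a p`, then `k, t` from `transversal`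
(`100 κ ≤ N ρ` since `κ ≤ M ρ`). The map `x ↦ (p, k, w, t)` is injective on `T`: if `x, x'` have the same image,
`y = a p + t w` satisfies `dist y x ≤ 2/5 ρ d`, `dist y x' ≤ 2/5 ρ' d'`, so `dist x x' ≤ 4/5 max (ρ d) (ρ' d')` and
`separation` for the one with the larger value gives `x = x'`. So `#T ≤ ∑_(p,k,w) #{t} ≤ n * 3 * 6 (2N+1)^2 * 56 n^4`
with `(2N+1) ≤ 203 M`, `3 * 6 * 203^2 * 56 = 41538672 ≤ 42000000`.
Note `CondLE` forces `M ≥ 1` (`κ ≥ 1`, `ρ < 1`); if `M < 1` then `T` is empty. If `n = 0` the potential is `0`, so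
`CondLE` is impossible (first clause with a nonzero `v`).
well_conditioned: every finite subset of the set has at most `42000000 n^5 M^2` elements, so the set is finite
and its ncard is bounded.
-/

namespace PC992WC

open N62f3cee0

variable {n : ℕ} (q : Fin n → ℝ) (a : Fin n → E)

lemma gradient_zero {V : E → ℝ} {x : E} (h : gradient V x = 0) : fderiv ℝ V x = 0 := by
  unfold gradient at h
  exact (LinearIsometryEquiv.map_eq_zero_iff _).mp h

lemma condLE_pos {M : ℝ} {x : E} (h : CondLE q a M x) : 0 < n ∧ 1 ≤ M := by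
  obtain ⟨σ, κ, ρ, hσ, hκ, hρ, hρ1, hM, h1, -, -⟩ := h
  constructor
  · by_contra hn
    have hn0 : n = 0 := by omega
    subst hn0
    obtain ⟨w, _, hw⟩ := h1 (EuclideanSpace.single 0 1)
    have hV : potential q a = fun _ => 0 := by
      funext y
      simp [potential]
    have h0 : hess (potential q a) x (EuclideanSpace.single 0 1) w = 0 := by
      rw [hess_eq, hV]
      simp
    rw [h0, abs_zero, PiLp.norm_single] at hw
    simp at hw
    linarith
  · by_contra hM1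
    push Not at hM1
    nlinarith

/-- the data attached to one equilibrium -/
lemma data {M : ℝ} {N : ℕ} (hN : 100 * M ≤ N) (W : Finset E)
    (hW : ∀ w ∈ W, 1 ≤ ‖w‖ ∧ ‖w‖ ^ 2 ≤ 3)
    (hW2 : ∀ u : E, u ≠ 0 → ∃ w ∈ W, ∃ s : ℝ, 0 < s ∧ s ≤ ‖u‖ ∧ ‖u‖ ^ 2 ≤ 3 * s ^ 2 ∧
        ‖s • w - u‖ ≤ s / N) {x : E} (hx : x ∈ equilibria q a) (hc : CondLE q a M x) :
    ∃ (c : Fin n × Fin 3 × E) (t r : ℝ), c.2.2 ∈ W ∧ (∀ j, a c.1 + t • c.2.2 ≠ a j) ∧
      fderiv ℝ (potential q a) (a c.1 + t • c.2.2) (EuclideanSpace.single c.2.1 (1 : ℝ)) = 0 ∧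
      hess (potential q a) (a c.1 + t • c.2.2) c.2.2 (EuclideanSpace.single c.2.1 (1 : ℝ)) ≠ 0 ∧
      0 < r ∧ dist (a c.1 + t • c.2.2) x ≤ 2 / 5 * r ∧
      ∀ x', fderiv ℝ (potential q a) x' = 0 → dist x' x ≤ r → x' = x := by
  obtain ⟨hn, hM⟩ := condLE_pos q a hc
  obtain ⟨σ, κ, ρ, hσ, hκ, hρ, hρ1, hκM, h1, h2, h3⟩ := hc
  have : Nonempty (Fin n) := ⟨⟨0, hn⟩⟩
  obtain ⟨p, hp⟩ := Finite.exists_min (fun j => dist x (a j))
  have hxa : ∀ j, x ≠ a j := fun j h => hx.1 ⟨j, h.symm⟩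
  have hx0 : fderiv ℝ (potential q a) x = 0 := gradient_zero hx.2
  obtain ⟨w, hwW, s, hs, hsu, hus, hsw⟩ := hW2 (x - a p) (sub_ne_zero.mpr (hxa p))
  have hN' : 100 * κ ≤ (N : ℝ) * ρ := by
    calc 100 * κ ≤ 100 * (M * ρ) := by linarith
      _ = (100 * M) * ρ := by ring
      _ ≤ N * ρ := mul_le_mul_of_nonneg_right hN hρ.le
  obtain ⟨k, t, e1, e2, e3, e4⟩ := transversal q a p hp hxa hσ hκ hρ hρ1 h1 h2 h3 hx0 N hN' w
    (hW w hwW).1 (hW w hwW).2 s hs hsu hus hsw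
  refine ⟨(p, k, w), t, ρ * dist x (a p), hwW, e1, e2, e3, ?_, ?_, ?_⟩
  · exact mul_pos hρ (dist_pos.mpr (hxa p))
  · rw [← mul_assoc]
    exact e4
  · intro x' hx' hd
    exact separation q a p hp hxa hσ hρ hρ1 h1 h3 hx0 hx' hd

theorem card_bound (M : ℝ) (T : Finset E) (hT : ∀ x ∈ T, x ∈ equilibria q a ∧ CondLE q a M x) :
    (T.card : ℝ) ≤ 42000000 * n ^ 5 * M ^ 2 := by
  classical
  rcases T.eq_empty_or_nonempty with rfl | ⟨x0, hx0⟩
  · simp only [Finset.card_empty, Nat.cast_zero]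
    positivity
  obtain ⟨hn, hM⟩ := condLE_pos q a (hT x0 hx0).2
  set N := ⌈100 * M⌉₊ with hNdef
  have hN : 100 * M ≤ N := Nat.le_ceil _
  have hN2 : (N : ℝ) < 100 * M + 1 := Nat.ceil_lt_add_one (by positivity)
  have hN0 : 0 < N := by
    have : (0 : ℝ) < N := by linarith
    exact_mod_cast this
  obtain ⟨W, hWc, hW, hW2⟩ := grid N hN0
  have hdata := fun x (hx : x ∈ T) => data q a hN W hW hW2 (hT x hx).1 (hT x hx).2
  have hne : Nonempty (Fin n) := ⟨⟨0, hn⟩⟩
  choose! c t r h1 h2 h3 h4 h5 h6 h7 using hdata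
  have hfd : ∀ x ∈ T, fderiv ℝ (potential q a) x = 0 := fun x hx => gradient_zero (hT x hx).1.2
  have hinj : ∀ x ∈ T, ∀ x' ∈ T, c x = c x' → t x = t x' → r x ≤ r x' → x = x' := by
    intro x hx x' hx' hc ht hr
    apply h7 x' hx' x (hfd x hx)
    have d1 := h6 x hx
    have d2 := h6 x' hx'
    rw [hc, ht] at d1
    have d3 := dist_triangle_left x x' (a (c x').1 + t x' • (c x').2.2)
    have := h5 x' hx'
    linarith
  have hinj' : ∀ x ∈ T, ∀ x' ∈ T, c x = c x' → t x = t x' → x = x' := by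
    intro x hx x' hx' hc ht
    rcases le_total (r x) (r x') with h | h
    · exact hinj x hx x' hx' hc ht h
    · exact (hinj x' hx' x hx hc.symm ht.symm h).symm
  have hfib : ∀ v ∈ T.image c, (T.filter (fun x => c x = v)).card ≤ 56 * n ^ 4 := by
    intro v hv
    rw [Finset.mem_image] at hv
    obtain ⟨y, hy, rfl⟩ := hv
    rw [← Finset.card_image_of_injOn (f := t) (s := T.filter (fun x => c x = c y))]
    · apply ray_count q a (c y).1 (c y).2.2 (EuclideanSpace.single (c y).2.1 (1 : ℝ))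
      · intro h0
        have := (hW _ (h1 y hy)).1
        rw [h0, norm_zero] at this
        linarith
      · intro u hu
        rw [Finset.mem_image] at hu
        obtain ⟨x, hx, rfl⟩ := hu
        rw [Finset.mem_filter] at hx
        rw [← hx.2]
        exact ⟨h2 x hx.1, h3 x hx.1, h4 x hx.1⟩
    · intro x hx x' hx' h
      rw [Finset.mem_coe, Finset.mem_filter] at hx hx'
      exact hinj' x hx.1 x' hx'.1 (hx.2.trans hx'.2.symm) h
  have hc1 : T.card ≤ 56 * n ^ 4 * (T.image c).card := Finset.card_le_mul_card_image _ _ hfib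
  have hc2 : (T.image c).card ≤ n * (3 * W.card) := by
    have hsub : T.image c ⊆ Finset.univ ×ˢ (Finset.univ ×ˢ W) := by
      intro v hv
      rw [Finset.mem_image] at hv
      obtain ⟨y, hy, rfl⟩ := hv
      simp only [Finset.mem_product, Finset.mem_univ, true_and]
      exact h1 y hy
    refine (Finset.card_le_card hsub).trans (le_of_eq ?_)
    simp only [Finset.card_product, Finset.card_univ, Fintype.card_fin]
  have hc3 : (T.card : ℝ) ≤ 56 * n ^ 4 * (n * (3 * (6 * (2 * N + 1) ^ 2))) := by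
    have : T.card ≤ 56 * n ^ 4 * (n * (3 * (6 * (2 * N + 1) ^ 2))) := by
      refine hc1.trans (Nat.mul_le_mul_left _ (hc2.trans ?_))
      exact Nat.mul_le_mul_left _ (Nat.mul_le_mul_left _ hWc)
    exact_mod_cast this
  have hN3 : (2 * (N : ℝ) + 1) ^ 2 ≤ (203 * M) ^ 2 := by
    apply pow_le_pow_left₀ (by positivity)
    linarith
  calc (T.card : ℝ) ≤ 56 * n ^ 4 * (n * (3 * (6 * (2 * N + 1) ^ 2))) := hc3
    _ = 1008 * n ^ 5 * (2 * N + 1) ^ 2 := by ring
    _ ≤ 1008 * n ^ 5 * (203 * M) ^ 2 := mul_le_mul_of_nonneg_left hN3 (by positivity)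
    _ = 41538672 * (n ^ 5 * M ^ 2) := by ring
    _ ≤ 42000000 * (n ^ 5 * M ^ 2) := mul_le_mul_of_nonneg_right (by norm_num) (by positivity)
    _ = 42000000 * n ^ 5 * M ^ 2 := by ring

theorem well_conditioned (M : ℝ) :
    {x ∈ equilibria q a | CondLE q a M x}.Finite ∧
      (({x ∈ equilibria q a | CondLE q a M x}.ncard : ℕ) : ℝ) ≤ 42000000 * n ^ 5 * M ^ 2 := by
  classical
  set s : Set E := {x ∈ equilibria q a | CondLE q a M x} with hs
  have hfin : s.Finite := by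
    by_contra hinf
    obtain ⟨T, hT, hc⟩ := Set.Infinite.exists_subset_card_eq (s := s) hinf
      (⌊42000000 * (n : ℝ) ^ 5 * M ^ 2⌋₊ + 1)
    have h1 := card_bound q a M T (fun x hx => hT hx)
    rw [hc] at h1
    push_cast at h1
    have := Nat.lt_floor_add_one (42000000 * (n : ℝ) ^ 5 * M ^ 2)
    linarith
  refine ⟨hfin, ?_⟩
  rw [Set.ncard_eq_toFinset_card s hfin]
  exact card_bound q a M _ (fun x hx => by
    rw [Set.Finite.mem_toFinset] at hx
    exact hx)

theorem q1_conditioned (m : ℕ) :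
    ∀ (n : ℕ) (q : Fin n → ℝ) (a : Fin n → E),
      (∀ x ∈ equilibria q a, CondLE q a ((n : ℝ) ^ m) x) →
      (equilibria q a).encard ≤ ((42000000 * n ^ (5 + 2 * m) : ℕ) : ℕ∞) := by
  intro n q a h
  obtain ⟨h1, h2⟩ := well_conditioned q a ((n : ℝ) ^ m)
  have e : {x ∈ equilibria q a | CondLE q a ((n : ℝ) ^ m) x} = equilibria q a := by
    ext x
    exact ⟨fun hx => hx.1, fun hx => ⟨hx, h x hx⟩⟩
  rw [e] at h1 h2
  rw [← h1.cast_ncard_eq]
  have h3 : (((equilibria q a).ncard : ℕ) : ℝ) ≤ ((42000000 * n ^ (5 + 2 * m) : ℕ) : ℝ) := by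
    refine h2.trans (le_of_eq ?_)
    push_cast
    ring
  exact_mod_cast h3

end PC992WC
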